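import Pool.Agent.Helper69.PC.Ex

/-! The upper half implies quadratic repulsion. -/

open Filter Topology Complex MeasureTheory

namespace Pool.Agent.Helper69.PC

open H332B Pool.Agent.Helper84.OS

variable {l : Filter ℝ}

/-- the asymptotics of the number of zeros -/
lemma NZ_asymp {ε : ℝ} (hε : 0 < ε) : ∀ᶠ T in atTop,
    (1 - ε) * X T ≤ NZ T ∧ NZ T ≤ (1 + ε) * X T := by
  obtain ⟨T1, hT1, h1⟩ := Pool.Agent.W54.TCF.NT_asymp' ε hε
  filter_upwards [eventually_ge_atTop T1] with T hT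
  have h2 := h1 T hT
  have h4 : T / (2 * Real.pi) * Real.log T = X T := by unfold X; ring
  rw [h4] at h2
  exact h2

/-- **repulsion from upper bounds** -/
theorem repulsion (hRH : RiemannHypothesis) (hl : l ≤ atTop) {ζ : ℝ} (hζ : 0 < ζ) (hζ1 : ζ ≤ 1)
    (h : ∀ A, UH l A 0) : ∀ᶠ T in l, E T (ind T ζ) ≤ 2 * ζ ^ 2 * NZ T := by
  set A : ℝ := 1 / ζ with hA
  have hA1 : 1 ≤ A := by
    rw [hA, le_div_iff₀ hζ]
    linarith
  have hA0 : 0 < A := by linarith
  set e : ℝ := 1 / (1000 * A ^ 2) with he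
  have he0 : 0 < e := by positivity
  have hm : ∀ᶠ T in l, ∀ t t' : ℝ, t ≤ t' → cum T t ≤ cum T t' := by
    filter_upwards [(eventually_gt_atTop (1 : ℝ)).filter_mono hl] with T hT t t' htt'
    exact cum_mono hRH hT htt'
  have E1 := unif (l := l) (G := cum) (s := 1) (A := A) (β := 0) hA1 hm (fun t ht ε' hε' => by
    filter_upwards [cum_upper hRH hl (h A) (t := t) (by linarith [ht.1]) ht.2 hε']
      with T hT
    rw [mm_one_le ht.1] at hT
    linarith) he0
  have E2 := ((Metric.tendsto_nhds.1 (cum_int_lim hRH)) (1 / 1000) (by norm_num)).filter_mono hl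
  have E3 := (NZ_asymp he0).filter_mono hl
  have E4 : ∀ᶠ T in l, 1 ≤ Real.log T :=
    (Real.tendsto_log_atTop.eventually_ge_atTop _).filter_mono hl
  filter_upwards [E1, E2, E3, E4, (eventually_gt_atTop (1 : ℝ)).filter_mono hl]
    with T h1 h2 h3 h4 hT
  have hX := X_pos hT
  rw [Real.dist_eq, abs_lt] at h2
  have hcc := cum_cont hRH T
  -- the integral of `cum`
  have h5 : ∫ a in (0 : ℝ)..A, cum T a ≤ 1 / 6 + 1 / 500 + A ^ 2 / 2 := by
    rw [← intervalIntegral.integral_add_adjacent_intervals (a := 0) (b := 1) (c := A)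
      (hcc.intervalIntegrable _ _) (hcc.intervalIntegrable _ _)]
    have h6 : ∫ a in (1 : ℝ)..A, cum T a ≤ ∫ a in (1 : ℝ)..A, (a + e) := by
      refine intervalIntegral.integral_mono_on hA1 (hcc.intervalIntegrable _ _) ?_ fun a ha => ?_
      · exact (by fun_prop : Continuous fun a : ℝ => a + e).intervalIntegrable _ _
      · have := h1 a ha
        linarith
    have h7 : ∫ a in (1 : ℝ)..A, (a + e) = A ^ 2 / 2 - 1 / 2 + (A - 1) * e := by
      rw [intervalIntegral.integral_add (by simp) (by simp), intervalIntegral.integral_const,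
        smul_eq_mul, integral_id]
      ring
    have h8 : (A - 1) * e ≤ 1 / 1000 := by
      rw [he, mul_one_div, div_le_div_iff₀ (by positivity) (by norm_num)]
      nlinarith
    linarith [h2.2]
  -- the pair sum
  have h6 := cum_K2 hRH hT A
  have h7 : E T (fun x => 4 / (4 + x ^ 2) * TA A (Real.log T * x)) =
      X T * (∫ a in (0 : ℝ)..A, cum T a) - NZ T * (A ^ 2 / 2) := by
    unfold E
    rw [← h6]
    simp [TA_zero]
  have h8 : E T (fun x => A ^ 2 / 5 * ind T ζ x) ≤
      E T (fun x => 4 / (4 + x ^ 2) * TA A (Real.log T * x)) := by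
    refine E_mono fun x => ?_
    unfold ind
    split_ifs with h
    · have h9 := TA_ge (A := A) (z := Real.log T * x) hA0.le (by
        rw [hA, one_div, inv_mul_le_iff₀ hζ, mul_one]
        exact h)
      have h10 : x ^ 2 ≤ 1 := by
        rw [abs_mul, abs_of_nonneg (by linarith : 0 ≤ Real.log T)] at h
        have h11 : |x| ≤ 1 := by nlinarith [abs_nonneg x]
        rw [← sq_abs]
        nlinarith [abs_nonneg x]
      have h12 : 4 / 5 ≤ 4 / (4 + x ^ 2) := by
        gcongr
        linarith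
      have h13 : 4 / 5 * (A ^ 2 / 4) ≤ 4 / (4 + x ^ 2) * TA A (Real.log T * x) := by
        gcongr
      linarith
    · have := TA_nonneg A (Real.log T * x)
      rw [mul_zero]
      positivity
  rw [E_smul, h7] at h8
  have h9 : (1 - e) * X T * (A ^ 2 / 2) ≤ NZ T * (A ^ 2 / 2) :=
    mul_le_mul_of_nonneg_right h3.1 (by positivity)
  have h10 : X T * (∫ a in (0 : ℝ)..A, cum T a) ≤ X T * (1 / 6 + 1 / 500 + A ^ 2 / 2) := by gcongr
  have h11 : e * (A ^ 2 / 2) ≤ 1 / 500 := by
    rw [he]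
    rw [show 1 / (1000 * A ^ 2) * (A ^ 2 / 2) = 1 / 2000 by field_simp; norm_num]
    norm_num
  have h12 : A ^ 2 / 5 * E T (ind T ζ) ≤ X T * (1 / 6 + 1 / 250) := by
    have : e * (A ^ 2 / 2) * X T ≤ 1 / 500 * X T := mul_le_mul_of_nonneg_right h11 hX.le
    nlinarith
  have h13 : E T (ind T ζ) ≤ ζ ^ 2 * X T * (86 / 100) := by
    have h14 : E T (ind T ζ) = 5 * ζ ^ 2 * (A ^ 2 / 5 * E T (ind T ζ)) := by
      rw [hA]
      field_simp
    rw [h14]
    have : 5 * ζ ^ 2 * (A ^ 2 / 5 * E T (ind T ζ)) ≤ 5 * ζ ^ 2 * (X T * (1 / 6 + 1 / 250)) := by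
      gcongr
    have h15 : 0 ≤ ζ ^ 2 * X T := by positivity
    linarith
  have h14 : X T / 2 ≤ NZ T := by
    have h15 : e ≤ 1 / 2 := by
      rw [he, div_le_div_iff₀ (by positivity) (by norm_num)]
      nlinarith
    nlinarith [h3.1]
  have h15 : 0 ≤ ζ ^ 2 := sq_nonneg ζ
  nlinarith [mul_le_mul_of_nonneg_left h14 h15, mul_nonneg h15 hX.le]

end Pool.Agent.Helper69.PC
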