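import Pool.Agent.Helper84.OS.Main

/-! The pair sum without the diagonal. -/

open Filter Topology Complex MeasureTheory

namespace Pool.Agent.Helper69.PC

open H332B Pool.Agent.Helper84.OS

/-- the number of the zeros -/
noncomputable def NZ (T : ℝ) : ℝ := (H370.NN riemannZeta 0 T : ℝ)

/-- the pair sum without the diagonal -/
noncomputable def E (T : ℝ) (f : ℝ → ℝ) : ℝ := K2 T f - NZ T * f 0

lemma NZ_sum (T : ℝ) : ∑ s ∈ H343.ZSide.Z0 T, H343.ZSide.mz s = NZ T :=
  Pool.Agent.Y744.sum_Zt T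

lemma NZ_nonneg (T : ℝ) : 0 ≤ NZ T := Nat.cast_nonneg _

lemma one_le_mz {T : ℝ} {s : ℂ} (hs : s ∈ H343.ZSide.Z0 T) : 1 ≤ H343.ZSide.mz s := by
  unfold H343.ZSide.mz
  have hs' : s ∈ H370.zset riemannZeta 0 T := by
    rw [← Pool.Agent.Y744.mem_Zt]
    exact hs
  have : 1 ≤ H370.mult riemannZeta s := H370.Loc.mult_pos' H370.good_zeta hs'.2.2.1 hs'.2.2.2.2
  exact_mod_cast this

lemma E_nonneg {T : ℝ} {f : ℝ → ℝ} (hf : ∀ x, 0 ≤ f x) : 0 ≤ E T f := by
  classical
  unfold E K2
  rw [← NZ_sum, Finset.sum_mul, ← Finset.sum_sub_distrib]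
  refine Finset.sum_nonneg fun s hs => ?_
  have h1 : H343.ZSide.mz s * H343.ZSide.mz s * f (s.im - s.im) ≤
      ∑ s' ∈ H343.ZSide.Z0 T, H343.ZSide.mz s * H343.ZSide.mz s' * f (s.im - s'.im) :=
    Finset.single_le_sum
      (f := fun s' => H343.ZSide.mz s * H343.ZSide.mz s' * f (s.im - s'.im)) (fun s' _ => by
        have := mz_nonneg s
        have := mz_nonneg s'
        have := hf (s.im - s'.im)
        positivity) hs
  rw [sub_self] at h1
  have h2 := one_le_mz hs
  have h3 : H343.ZSide.mz s * f 0 ≤ H343.ZSide.mz s * H343.ZSide.mz s * f 0 := by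
    have h4 := hf 0
    have h5 : H343.ZSide.mz s ≤ H343.ZSide.mz s * H343.ZSide.mz s := by nlinarith
    exact mul_le_mul_of_nonneg_right h5 h4
  linarith

lemma K2_add (T : ℝ) (f g : ℝ → ℝ) : K2 T (fun x => f x + g x) = K2 T f + K2 T g := by
  unfold K2
  rw [← Finset.sum_add_distrib]
  refine Finset.sum_congr rfl fun s _ => ?_
  rw [← Finset.sum_add_distrib]
  exact Finset.sum_congr rfl fun s' _ => by ring

lemma K2_zero (T : ℝ) : K2 T (fun _ => 0) = 0 := by
  unfold K2
  simp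

lemma E_add (T : ℝ) (f g : ℝ → ℝ) : E T (fun x => f x + g x) = E T f + E T g := by
  unfold E
  rw [K2_add]
  ring

lemma E_smul (T c : ℝ) (f : ℝ → ℝ) : E T (fun x => c * f x) = c * E T f := by
  unfold E
  rw [K2_smul]
  ring

lemma E_zero (T : ℝ) : E T (fun _ => 0) = 0 := by
  unfold E
  rw [K2_zero]
  ring

lemma E_sum {ι : Type*} (T : ℝ) (S : Finset ι) (c : ι → ℝ) (f : ι → ℝ → ℝ) :
    E T (fun x => ∑ i ∈ S, c i * f i x) = ∑ i ∈ S, c i * E T (f i) := by
  classical
  induction S using Finset.induction_on with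
  | empty => simp [E_zero]
  | insert a S ha ih =>
    rw [Finset.sum_insert ha, ← ih, ← E_smul, ← E_add]
    congr 1
    funext x
    rw [Finset.sum_insert ha]

lemma E_mono {T : ℝ} {f g : ℝ → ℝ} (h : ∀ x, f x ≤ g x) : E T f ≤ E T g := by
  have h1 : 0 ≤ E T (fun x => g x + (-1) * f x) := E_nonneg fun x => by
    have := h x
    linarith
  rw [E_add, E_smul] at h1
  linarith

lemma E_le_K2 {T : ℝ} {f : ℝ → ℝ} (h : 0 ≤ f 0) : E T f ≤ K2 T f := by
  unfold E
  have := NZ_nonneg T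
  nlinarith [mul_nonneg this h]

/-- the indicator of the close pairs -/
noncomputable def ind (T ζ : ℝ) (x : ℝ) : ℝ := by
  classical exact if |Real.log T * x| ≤ ζ then 1 else 0

lemma ind_nonneg (T ζ x : ℝ) : 0 ≤ ind T ζ x := by
  unfold ind
  split_ifs <;> norm_num

lemma ind_le_one (T ζ x : ℝ) : ind T ζ x ≤ 1 := by
  unfold ind
  split_ifs <;> norm_num

/-- the Fejér kernel -/
noncomputable def TA (A z : ℝ) : ℝ := ∫ α in (0 : ℝ)..A, (A - α) * Real.cos (α * z)

lemma TA_zero (A : ℝ) : TA A 0 = A ^ 2 / 2 := fejer0 A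

lemma TA_nonneg (A z : ℝ) : 0 ≤ TA A z := fejer A z

lemma TA_ge {A z : ℝ} (hA : 0 ≤ A) (h : A * |z| ≤ 1) : A ^ 2 / 4 ≤ TA A z := by
  have h1 : ∫ α in (0 : ℝ)..A, (A - α) * (1 / 2) = A ^ 2 / 4 := by
    rw [intervalIntegral.integral_mul_const, intervalIntegral.integral_sub (by simp) (by simp),
      intervalIntegral.integral_const, int_id, smul_eq_mul]
    ring
  rw [← h1]
  unfold TA
  refine intervalIntegral.integral_mono_on hA ?_ ?_ fun α hα => ?_
  · exact (by fun_prop : Continuous fun α : ℝ => (A - α) * (1 / 2)).intervalIntegrable _ _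
  · exact (by fun_prop : Continuous fun α : ℝ => (A - α) * Real.cos (α * z)).intervalIntegrable _ _
  · refine mul_le_mul_of_nonneg_left ?_ (by linarith [hα.2])
    have h2 := Real.one_sub_sq_div_two_le_cos (x := α * z)
    have h3 : |α * z| ≤ 1 := by
      rw [abs_mul, abs_of_nonneg hα.1]
      exact (mul_le_mul_of_nonneg_right hα.2 (abs_nonneg z)).trans h
    have h4 : (α * z) ^ 2 ≤ 1 := by
      rw [← sq_abs]
      nlinarith [abs_nonneg (α * z)]
    linarith

/-- the integral of `cum` as a pair sum -/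
lemma cum_K2 (hRH : RiemannHypothesis) {T : ℝ} (hT : 1 < T) (A : ℝ) :
    X T * ∫ a in (0 : ℝ)..A, cum T a =
      K2 T (fun x => 4 / (4 + x ^ 2) * TA A (Real.log T * x)) := by
  have hX := X_pos hT
  rw [int_cum, mul_div_cancel₀ _ hX.ne', int_Wp hRH (by fun_prop)]
  · congr 1
    funext x
    unfold TA
    simp_rw [mul_assoc]
  · exact hRH

/-- few pairs at the distance of the mean spacing -/
lemma P1 (hRH : RiemannHypothesis) : ∀ᶠ T in atTop, K2 T (ind T 1) ≤ 5 * X T := by
  have h1 := (Metric.tendsto_nhds.1 (cum_int_lim hRH)) (1 / 3) (by norm_num)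
  have h2 : ∀ᶠ T : ℝ in atTop, 1 ≤ Real.log T :=
    Real.tendsto_log_atTop.eventually_ge_atTop _
  filter_upwards [h1, h2, eventually_gt_atTop (1 : ℝ)] with T h1 h2 hT
  have hX := X_pos hT
  rw [Real.dist_eq, abs_lt] at h1
  have h3 := cum_K2 hRH hT 1
  have h4 : K2 T (fun x => 1 / 5 * ind T 1 x) ≤
      K2 T (fun x => 4 / (4 + x ^ 2) * TA 1 (Real.log T * x)) := by
    refine K2_mono fun x => ?_
    unfold ind
    split_ifs with h
    · have h5 := TA_ge (A := 1) (z := Real.log T * x) zero_le_one (by linarith)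
      have h6 : x ^ 2 ≤ 1 := by
        rw [abs_mul, abs_of_nonneg (by linarith : 0 ≤ Real.log T)] at h
        have h7 : |x| ≤ 1 := by nlinarith [abs_nonneg x]
        rw [← sq_abs]
        nlinarith [abs_nonneg x]
      have h8 : 4 / 5 ≤ 4 / (4 + x ^ 2) := by
        gcongr
        linarith
      have h9 : 4 / 5 * (1 ^ 2 / 4) ≤ 4 / (4 + x ^ 2) * TA 1 (Real.log T * x) := by
        gcongr
      linarith
    · have := TA_nonneg 1 (Real.log T * x)
      rw [mul_zero]
      positivity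
  rw [K2_smul, ← h3] at h4
  nlinarith

/-- the tail -/
lemma tail (hRH : RiemannHypothesis) : ∀ᶠ T in atTop,
    K2 T (fun x => 1 / (1 + (Real.log T * x) ^ 2)) ≤ 100 * X T := by
  filter_upwards [P1 hRH, eventually_gt_atTop (1 : ℝ)] with T h1 hT
  have hL := Real.log_pos hT
  have h2 := cell (H343.ZSide.Z0 T) H343.ZSide.mz (1 / Real.log T) (fun x => 1 / (1 + x ^ 2))
    (by positivity) mz_nonneg (fun x => ⟨by positivity, le_rfl⟩)
  have h3 : K2 T (fun x => 1 / (1 + (Real.log T * x) ^ 2)) ≤ 20 * K2 T (ind T 1) := by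
    unfold K2
    convert h2 using 1
    · refine Finset.sum_congr rfl fun s _ => Finset.sum_congr rfl fun s' _ => ?_
      rw [show (s.im - s'.im) / (1 / Real.log T) = Real.log T * (s.im - s'.im) by
        rw [div_div_eq_mul_div, div_one, mul_comm]]
    · congr 1
      refine Finset.sum_congr rfl fun s _ => Finset.sum_congr rfl fun s' _ => ?_
      unfold ind
      have h4 : |Real.log T * (s.im - s'.im)| ≤ 1 ↔ |s.im - s'.im| ≤ 1 / Real.log T := by
        rw [abs_mul, abs_of_pos hL, le_div_iff₀ hL, mul_comm]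
      by_cases h : |s.im - s'.im| ≤ 1 / Real.log T
      · rw [if_pos h, if_pos (h4.2 h), mul_one]
      · rw [if_neg h, if_neg (fun h' => h (h4.1 h')), mul_zero]
  linarith

end Pool.Agent.Helper69.PC
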