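import Pool.Agent.Helper69.PC.Ex

/-! The Laplace transform of Montgomery's function. -/

open Filter Topology Complex MeasureTheory

namespace Pool.Agent.Helper69.PC

open H332B Pool.Agent.Helper84.OS

/-- the Poisson kernel -/
noncomputable def ph (s v : ℝ) : ℝ := s / (s ^ 2 + v ^ 2)

lemma lap_int {s : ℝ} (hs : 0 < s) (z : ℝ) :
    IntegrableOn (fun α : ℝ => Real.exp (-s * α) * Real.cos (α * z)) (Set.Ioi 0) := by
  have h1 := integrableOn_exp_mul_complex_Ioi (a := (-s + z * I : ℂ)) (by simpa using hs) 0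
  have h2 := h1.re
  refine h2.congr ?_
  refine Eventually.of_forall fun α => ?_
  show (cexp ((-s + z * I) * α)).re = _
  rw [show ((-s + z * I : ℂ) * α) = ((-s * α : ℝ) : ℂ) + ((α * z : ℝ) : ℂ) * I by push_cast; ring,
    Complex.exp_add, ← Complex.ofReal_exp, Complex.re_ofReal_mul, Complex.exp_ofReal_mul_I_re]

lemma lap_cos {s : ℝ} (hs : 0 < s) (z : ℝ) :
    ∫ α in Set.Ioi (0 : ℝ), Real.exp (-s * α) * Real.cos (α * z) = ph s z := by
  have h0 : (-s + z * I : ℂ) ≠ 0 := by
    intro h
    have := congrArg Complex.re h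
    simp at this
    linarith
  have h1 := integral_exp_mul_complex_Ioi (a := (-s + z * I : ℂ)) (by simpa using hs) 0
  have h2 := integral_re (integrableOn_exp_mul_complex_Ioi (a := (-s + z * I : ℂ))
    (by simpa using hs) 0)
  rw [h1] at h2
  have h3 : ∀ α : ℝ, RCLike.re (cexp ((-s + z * I) * α)) =
      Real.exp (-s * α) * Real.cos (α * z) := by
    intro α
    show (cexp ((-s + z * I) * α)).re = _
    rw [show ((-s + z * I : ℂ) * α) = ((-s * α : ℝ) : ℂ) + ((α * z : ℝ) : ℂ) * I by
      push_cast; ring,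
      Complex.exp_add, ← Complex.ofReal_exp, Complex.re_ofReal_mul, Complex.exp_ofReal_mul_I_re]
  simp_rw [h3] at h2
  rw [h2]
  unfold ph
  simp only [ofReal_zero, mul_zero, Complex.exp_zero, RCLike.re_to_complex]
  rw [Complex.div_re]
  simp [Complex.normSq_apply]
  rw [← sq, ← sq]

/-- the Laplace transform of Montgomery's function is a pair sum -/
lemma lap_K2 (hRH : RiemannHypothesis) (T : ℝ) {s : ℝ} (hs : 0 < s) :
    IntegrableOn (fun α : ℝ => Real.exp (-s * α) * Wp T (α * Real.log T)) (Set.Ioi 0) ∧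
    ∫ α in Set.Ioi (0 : ℝ), Real.exp (-s * α) * Wp T (α * Real.log T) =
      K2 T (fun x => 4 / (4 + x ^ 2) * ph s (Real.log T * x)) := by
  have h1 : ∀ α : ℝ, Real.exp (-s * α) * Wp T (α * Real.log T) = ∑ s₁ ∈ H343.ZSide.Z0 T,
      ∑ s' ∈ H343.ZSide.Z0 T, (H343.ZSide.mz s₁ * H343.ZSide.mz s' *
        (4 / (4 + (s₁.im - s'.im) ^ 2))) *
        (Real.exp (-s * α) * Real.cos (α * (Real.log T * (s₁.im - s'.im)))) := by
    intro α
    rw [wpc hRH]
    unfold K2
    rw [Finset.mul_sum]
    refine Finset.sum_congr rfl fun s₁ _ => ?_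
    rw [Finset.mul_sum]
    refine Finset.sum_congr rfl fun s' _ => ?_
    rw [← mul_assoc α]
    ring
  simp_rw [h1]
  constructor
  · refine MeasureTheory.integrable_finsetSum _ fun s₁ _ => ?_
    refine MeasureTheory.integrable_finsetSum _ fun s' _ => ?_
    exact (lap_int hs _).const_mul _
  · rw [MeasureTheory.integral_finsetSum]
    · unfold K2
      refine Finset.sum_congr rfl fun s₁ _ => ?_
      rw [MeasureTheory.integral_finsetSum]
      · refine Finset.sum_congr rfl fun s' _ => ?_
        rw [MeasureTheory.integral_const_mul, lap_cos hs]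
        ring
      · intro s' _
        exact (lap_int hs _).const_mul _
    · intro s₁ _
      refine MeasureTheory.integrable_finsetSum _ fun s' _ => ?_
      exact (lap_int hs _).const_mul _

/-- integration by parts -/
lemma lap_lower (hRH : RiemannHypothesis) {T : ℝ} (hT : 1 < T) {s : ℝ} (hs : 0 < s) {c A : ℝ}
    (hc : 0 ≤ c) (hcA : c ≤ A) :
    X T * ∫ a in c..A, s * Real.exp (-s * a) * cum T a ≤
      ∫ α in Set.Ioi (0 : ℝ), Real.exp (-s * α) * Wp T (α * Real.log T) := by
  have hX := X_pos hT
  have hcont := Wc hRH T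
  have hcc := cum_cont hRH T
  have h1 : ∫ α in (0 : ℝ)..A, Real.exp (-s * α) * Wp T (α * Real.log T) ≤
      ∫ α in Set.Ioi (0 : ℝ), Real.exp (-s * α) * Wp T (α * Real.log T) := by
    rw [intervalIntegral.integral_of_le (hc.trans hcA)]
    refine MeasureTheory.setIntegral_mono_set (lap_K2 hRH T hs).1 ?_ ?_
    · refine Eventually.of_forall fun α => ?_
      exact mul_nonneg (Real.exp_pos _).le (Wn T α)
    · exact Set.Ioc_subset_Ioi_self.eventuallyLE
  refine le_trans ?_ h1
  -- derivative of `exp (-s a) cum a`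
  have hd : ∀ a ∈ Set.uIcc 0 A, HasDerivAt (fun a => Real.exp (-s * a) * cum T a)
      (-(s * Real.exp (-s * a) * cum T a) +
        Real.exp (-s * a) * (Wp T (a * Real.log T) / X T)) a := by
    intro a _
    have e1 : HasDerivAt (fun a => cum T a) (Wp T (a * Real.log T) / X T) a := by
      unfold cum
      exact (intervalIntegral.integral_hasDerivAt_right (Wi hRH T _ _)
        (hcont.stronglyMeasurableAtFilter _ _) hcont.continuousAt).div_const _
    have e2 : HasDerivAt (fun a : ℝ => Real.exp (-s * a)) (Real.exp (-s * a) * (-s)) a := by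
      have := ((hasDerivAt_id a).const_mul (-s)).exp
      simpa using this
    refine (e2.mul e1).congr_deriv ?_
    ring
  have hi1 : Continuous fun a : ℝ => s * Real.exp (-s * a) * cum T a := by fun_prop
  have hi2 : Continuous fun a : ℝ => Real.exp (-s * a) * (Wp T (a * Real.log T) / X T) := by
    fun_prop
  have h2 := intervalIntegral.integral_eq_sub_of_hasDerivAt hd
    ((hi1.neg.add hi2).intervalIntegrable _ _)
  have h3 : ∫ a in (0 : ℝ)..A, (-(s * Real.exp (-s * a) * cum T a) +
        Real.exp (-s * a) * (Wp T (a * Real.log T) / X T)) =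
      -(∫ a in (0 : ℝ)..A, s * Real.exp (-s * a) * cum T a) +
        (∫ a in (0 : ℝ)..A, Real.exp (-s * a) * Wp T (a * Real.log T)) / X T := by
    have hi3 : IntervalIntegrable (fun a : ℝ => -(s * Real.exp (-s * a) * cum T a)) volume 0 A :=
      hi1.neg.intervalIntegrable _ _
    rw [intervalIntegral.integral_add hi3
      (hi2.intervalIntegrable _ _), intervalIntegral.integral_neg,
      ← intervalIntegral.integral_div]
    congr 1
    refine intervalIntegral.integral_congr fun a _ => ?_
    show Real.exp (-s * a) * (Wp T (a * Real.log T) / X T) =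
      Real.exp (-s * a) * Wp T (a * Real.log T) / X T
    ring
  have h0 : cum T 0 = 0 := by unfold cum; simp
  rw [h3, h0, mul_zero, sub_zero] at h2
  have h4 : 0 ≤ Real.exp (-s * A) * cum T A :=
    mul_nonneg (Real.exp_pos _).le (cum_nonneg hRH hT (hc.trans hcA))
  have h5 : ∫ a in c..A, s * Real.exp (-s * a) * cum T a ≤
      ∫ a in (0 : ℝ)..A, s * Real.exp (-s * a) * cum T a := by
    rw [← intervalIntegral.integral_add_adjacent_intervals (a := 0) (b := c) (c := A)
      (hi1.intervalIntegrable _ _) (hi1.intervalIntegrable _ _)]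
    have : 0 ≤ ∫ a in (0 : ℝ)..c, s * Real.exp (-s * a) * cum T a :=
      intervalIntegral.integral_nonneg hc fun a ha => by
        have := cum_nonneg hRH hT ha.1
        have := Real.exp_pos (-s * a)
        positivity
    linarith
  have h6 : (∫ a in (0 : ℝ)..A, s * Real.exp (-s * a) * cum T a) ≤
      (∫ a in (0 : ℝ)..A, Real.exp (-s * a) * Wp T (a * Real.log T)) / X T := by linarith
  rw [le_div_iff₀ hX] at h6
  calc X T * ∫ a in c..A, s * Real.exp (-s * a) * cum T a ≤
      X T * ∫ a in (0 : ℝ)..A, s * Real.exp (-s * a) * cum T a := by gcongr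
    _ ≤ _ := by linarith

/-- the explicit integral -/
lemma expl {s : ℝ} (hs : 0 < s) (c A δ : ℝ) :
    ∫ a in c..A, s * Real.exp (-s * a) * (a + δ) =
      Real.exp (-s * c) * (c + δ + 1 / s) - Real.exp (-s * A) * (A + δ + 1 / s) := by
  have hd : ∀ a ∈ Set.uIcc c A, HasDerivAt (fun a => -(Real.exp (-s * a) * (a + δ + 1 / s)))
      (s * Real.exp (-s * a) * (a + δ)) a := by
    intro a _
    have e1 : HasDerivAt (fun a : ℝ => a + δ + 1 / s) 1 a := by
      simpa using ((hasDerivAt_id a).add_const δ).add_const (1 / s)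
    have e2 : HasDerivAt (fun a : ℝ => Real.exp (-s * a)) (Real.exp (-s * a) * (-s)) a := by
      have := ((hasDerivAt_id a).const_mul (-s)).exp
      simpa using this
    refine (e2.mul e1).neg.congr_deriv ?_
    field_simp
    ring
  rw [intervalIntegral.integral_eq_sub_of_hasDerivAt hd
    ((by fun_prop : Continuous fun a : ℝ => s * Real.exp (-s * a) * (a + δ)).intervalIntegrable
      _ _)]
  ring

/-! ### The step majorant -/

lemma ph_anti {s : ℝ} (hs : 0 < s) {v w : ℝ} (hv : 0 ≤ v) (hvw : v ≤ w) : ph s w ≤ ph s v := by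
  unfold ph
  gcongr

lemma ph_nonneg {s : ℝ} (hs : 0 < s) (v : ℝ) : 0 ≤ ph s v := by
  unfold ph
  positivity

lemma step_maj {s : ℝ} (hs : 0 < s) {h : ℝ} (hh : 0 < h) (n : ℕ) {y : ℝ} (hy : 0 ≤ y)
    (hyn : y ≤ n * h) : ph s y ≤ (∑ j ∈ Finset.range n,
      (ph s (j * h) - ph s ((j + 1) * h)) * (if y ≤ (j + 1) * h then 1 else 0)) +
        ph s (n * h) := by
  induction n with
  | zero =>
    have : y = 0 := le_antisymm (by simpa using hyn) hy
    simp [this]
  | succ n ih =>
    rw [Finset.sum_range_succ]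
    have hd : ∀ j : ℕ, 0 ≤ ph s (j * h) - ph s ((j + 1) * h) := fun j => by
      have := ph_anti hs (v := j * h) (w := (j + 1) * h) (by positivity) (by nlinarith)
      linarith
    rcases le_or_gt y (n * h) with h1 | h1
    · have h2 := ih h1
      have h3 : y ≤ (n + 1) * h := by nlinarith
      rw [if_pos h3]
      push_cast
      linarith
    · have h3 : y ≤ (n + 1) * h := by push_cast at hyn; exact hyn
      rw [if_pos h3]
      have h4 : 0 ≤ ∑ j ∈ Finset.range n,
          (ph s (j * h) - ph s ((j + 1) * h)) * (if y ≤ (j + 1) * h then (1 : ℝ) else 0) :=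
        Finset.sum_nonneg fun j _ => mul_nonneg (hd j) (by split_ifs <;> norm_num)
      have h5 := ph_anti hs (v := n * h) (w := y) (by positivity) h1.le
      push_cast
      linarith

lemma abel (s h : ℝ) (n : ℕ) : (∑ j ∈ Finset.range n,
      (ph s (j * h) - ph s ((j + 1) * h)) * ((j + 1) * h)) + ph s (n * h) * (n * h) =
        h * ∑ j ∈ Finset.range n, ph s (j * h) := by
  induction n with
  | zero => simp
  | succ n ih =>
    rw [Finset.sum_range_succ, Finset.sum_range_succ, mul_add, ← ih]
    push_cast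
    ring

lemma arctan_sum {s : ℝ} (hs : 0 < s) {h : ℝ} (hh : 0 < h) (n : ℕ) :
    h * ∑ j ∈ Finset.range n, ph s ((j + 1) * h) ≤ Real.arctan (n * h / s) := by
  induction n with
  | zero => simp
  | succ n ih =>
    rw [Finset.sum_range_succ, mul_add]
    have h1 : h * ph s ((n + 1) * h) ≤
        Real.arctan ((n + 1) * h / s) - Real.arctan (n * h / s) := by
      have hd : ∀ v : ℝ, HasDerivAt (fun v : ℝ => Real.arctan (v / s)) (ph s v) v := by
        intro v
        have := (Real.hasDerivAt_arctan (v / s)).comp v ((hasDerivAt_id v).div_const s)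
        refine this.congr_deriv ?_
        unfold ph
        field_simp
      have hle : (n : ℝ) * h ≤ (n + 1) * h := by nlinarith
      have h2 := (convex_Icc ((n : ℝ) * h) ((n + 1) * h)).mul_sub_le_image_sub_of_le_deriv
        (f := fun v : ℝ => Real.arctan (v / s)) (C := ph s ((n + 1) * h))
        (by fun_prop) (fun v _ => (hd v).differentiableAt.differentiableWithinAt)
        (fun v hv => by
          rw [(hd v).deriv]
          rw [interior_Icc] at hv
          exact ph_anti hs ((by positivity : (0 : ℝ) ≤ n * h).trans hv.1.le) hv.2.le)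
        (n * h) (Set.left_mem_Icc.2 hle) ((n + 1) * h) (Set.right_mem_Icc.2 hle) hle
      have h3 : ph s ((n + 1) * h) * ((n + 1) * h - n * h) = h * ph s ((n + 1) * h) := by ring
      linarith
    push_cast
    linarith

lemma riemann_sum {s : ℝ} (hs : 0 < s) {h : ℝ} (hh : 0 < h) (n : ℕ) :
    h * ∑ j ∈ Finset.range n, ph s (j * h) ≤ h / s + Real.pi / 2 := by
  have h1 := arctan_sum hs hh n
  have h2 := Real.arctan_lt_pi_div_two (n * h / s)
  have h3 : ∑ j ∈ Finset.range n, ph s (j * h) ≤
      ∑ j ∈ Finset.range (n + 1), ph s (j * h) := by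
    rw [Finset.sum_range_succ]
    linarith [ph_nonneg hs (n * h)]
  rw [Finset.sum_range_succ'] at h3
  push_cast at h3
  have h4 : ph s (0 * h) = 1 / s := by
    unfold ph
    field_simp
    ring
  rw [h4] at h3
  have h5 : h * ∑ j ∈ Finset.range n, ph s (j * h) ≤
      h * (∑ j ∈ Finset.range n, ph s ((j + 1) * h) + 1 / s) := by gcongr
  have h6 : h * (1 / s) = h / s := by ring
  linarith

/-- the excess in terms of the close pairs -/
lemma E_ph {T s h : ℝ} (hs : 0 < s) (hh : 0 < h) {n : ℕ} (hn : 0 < n)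
    {κ M : ℝ} (hclose : ∀ j ∈ Finset.range n, E T (ind T ((j + 1) * h)) ≤ κ * ((j + 1) * h) * NZ T)
    (htail : K2 T (fun x => 1 / (1 + (Real.log T * x) ^ 2)) ≤ M) (hκ : 0 ≤ κ) :
    E T (fun x => ph s (Real.log T * x)) ≤
      κ * NZ T * (h / s + Real.pi / 2) + s * (1 + 1 / (n * h) ^ 2) * M := by
  classical
  have hnh : 0 < (n : ℝ) * h := by
    have : (0 : ℝ) < n := by exact_mod_cast hn
    positivity
  have hN := NZ_nonneg T
  set c : ℕ → ℝ := fun j => ph s (j * h) - ph s ((j + 1) * h) with hc
  have hd : ∀ j : ℕ, 0 ≤ c j := fun j => by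
    have := ph_anti hs (v := j * h) (w := (j + 1) * h) (by positivity) (by nlinarith)
    simp only [hc]
    linarith
  have h1 : E T (fun x => ph s (Real.log T * x)) ≤
      E T (fun x => (∑ j ∈ Finset.range n, c j * ind T ((j + 1) * h) x) +
        (ph s (n * h) * ind T (n * h) x +
          s * (1 + 1 / (n * h) ^ 2) * (1 / (1 + (Real.log T * x) ^ 2)))) := by
    refine E_mono fun x => ?_
    have e0 : ph s (Real.log T * x) = ph s |Real.log T * x| := by
      unfold ph
      rw [sq_abs]
    have e3 : 0 ≤ s * (1 + 1 / (n * h) ^ 2) * (1 / (1 + (Real.log T * x) ^ 2)) := by positivity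
    rcases le_or_gt |Real.log T * x| (n * h) with h2 | h2
    · have e1 := step_maj hs hh n (abs_nonneg (Real.log T * x)) h2
      have e2 : ind T (n * h) x = 1 := by
        unfold ind
        rw [if_pos h2]
      rw [e2, e0, mul_one]
      have e4 : ∑ j ∈ Finset.range n, c j * ind T ((j + 1) * h) x =
          ∑ j ∈ Finset.range n, (ph s (j * h) - ph s ((j + 1) * h)) *
            (if |Real.log T * x| ≤ (j + 1) * h then (1 : ℝ) else 0) := by
        refine Finset.sum_congr rfl fun j _ => ?_
        unfold ind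
        rfl
      rw [e4]
      linarith
    · have e1 : 0 ≤ ∑ j ∈ Finset.range n, c j * ind T ((j + 1) * h) x :=
        Finset.sum_nonneg fun j _ => mul_nonneg (hd j) (ind_nonneg _ _ _)
      have e2 : 0 ≤ ph s (n * h) * ind T (n * h) x :=
        mul_nonneg (ph_nonneg hs _) (ind_nonneg _ _ _)
      have e4 : (n * h) ^ 2 < (Real.log T * x) ^ 2 := by
        rw [← sq_abs (Real.log T * x)]
        exact pow_lt_pow_left₀ h2 hnh.le two_ne_zero
      have e5 : ph s (Real.log T * x) ≤
          s * (1 + 1 / (n * h) ^ 2) * (1 / (1 + (Real.log T * x) ^ 2)) := by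
        unfold ph
        set z2 := (Real.log T * x) ^ 2 with hz2
        have hz : 0 < z2 := lt_trans (by positivity) e4
        have e6 : s / (s ^ 2 + z2) ≤ s / z2 := by
          gcongr
          nlinarith [sq_nonneg s]
        refine e6.trans ?_
        have e7 : s / z2 = s * (1 + 1 / z2) * (1 / (1 + z2)) := by
          field_simp
          ring
        rw [e7]
        gcongr
      linarith
  have h2 : E T (fun x => (∑ j ∈ Finset.range n, c j * ind T ((j + 1) * h) x) +
        (ph s (n * h) * ind T (n * h) x +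
          s * (1 + 1 / (n * h) ^ 2) * (1 / (1 + (Real.log T * x) ^ 2)))) =
      (∑ j ∈ Finset.range n, c j * E T (ind T ((j + 1) * h))) +
        (ph s (n * h) * E T (ind T (n * h)) +
          s * (1 + 1 / (n * h) ^ 2) * E T (fun x => 1 / (1 + (Real.log T * x) ^ 2))) := by
    rw [E_add, E_add, E_smul, E_smul]
    congr 1
    exact E_sum T (Finset.range n) c fun j => ind T ((j + 1) * h)
  rw [h2] at h1
  have h3 : ∑ j ∈ Finset.range n, c j * E T (ind T ((j + 1) * h)) ≤
      κ * NZ T * ∑ j ∈ Finset.range n, c j * ((j + 1) * h) := by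
    rw [Finset.mul_sum]
    refine Finset.sum_le_sum fun j hj => ?_
    have := mul_le_mul_of_nonneg_left (hclose j hj) (hd j)
    linarith
  have h4 : E T (ind T (n * h)) ≤ κ * (n * h) * NZ T := by
    have h5 := hclose (n - 1) (Finset.mem_range.2 (by omega))
    have h6 : ((n - 1 : ℕ) : ℝ) + 1 = n := by
      have : n - 1 + 1 = n := by omega
      exact_mod_cast this
    rwa [h6] at h5
  have h5 : ph s (n * h) * E T (ind T (n * h)) ≤ κ * NZ T * (ph s (n * h) * (n * h)) := by
    have := mul_le_mul_of_nonneg_left h4 (ph_nonneg hs (n * h))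
    linarith
  have h6 : E T (fun x => 1 / (1 + (Real.log T * x) ^ 2)) ≤ M :=
    (E_le_K2 (by positivity)).trans htail
  have h7 : s * (1 + 1 / (n * h) ^ 2) * E T (fun x => 1 / (1 + (Real.log T * x) ^ 2)) ≤
      s * (1 + 1 / (n * h) ^ 2) * M := by gcongr
  have h8 := abel s h n
  have h9 := riemann_sum hs hh n
  have h10 : κ * NZ T * ((∑ j ∈ Finset.range n, c j * ((j + 1) * h)) + ph s (n * h) * (n * h)) ≤
      κ * NZ T * (h / s + Real.pi / 2) := by
    rw [hc, h8]
    exact mul_le_mul_of_nonneg_left h9 (mul_nonneg hκ hN)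
  rw [mul_add] at h10
  linarith

end Pool.Agent.Helper69.PC
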