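import Pool.Agent.Helper69.PC.Lap
import Pool.Agent.Helper69.PC.Rep

/-! The balance of deficit, excess and close pairs. -/

open Filter Topology Complex MeasureTheory

namespace Pool.Agent.Helper69.PC

open H332B Pool.Agent.Helper84.OS

variable {l : Filter ℝ}

/-- lower bounds up to `η` -/
def LH (l : Filter ℝ) (η : ℝ) : Prop := ∀ b c : ℝ, 0 < b → b < c → ∀ ε : ℝ, 0 < ε →
  ∀ᶠ T in l, mm c - mm b - η - ε ≤ cum T c - cum T b

/-- at most `κ ε N` pairs of different zeros within `ε` mean spacings, for small `ε` -/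
def Rep (l : Filter ℝ) (κ : ℝ) : Prop := ∀ κ' : ℝ, κ < κ' → ∃ ε₀ : ℝ, 0 < ε₀ ∧
  ∀ ε : ℝ, 0 < ε → ε < ε₀ → ∀ᶠ T in l, E T (ind T (2 * Real.pi * ε)) ≤ κ' * ε * NZ T

/-- uniform lower bounds -/
lemma unif_lower {G : ℝ → ℝ → ℝ} {s A β : ℝ} (hsA : s ≤ A)
    (hmono : ∀ᶠ T in l, ∀ t t' : ℝ, t ≤ t' → G T t ≤ G T t')
    (h : ∀ t ∈ Set.Icc s A, ∀ ε : ℝ, 0 < ε → ∀ᶠ T in l, t + β - ε ≤ G T t) {ε : ℝ} (hε : 0 < ε) :
    ∀ᶠ T in l, ∀ t ∈ Set.Icc s A, t + β - ε ≤ G T t := by
  have h1 := unif (l := l) (G := fun T t => -G T (-t)) (s := -A) (A := -s) (β := -β)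
    (by linarith) (by
      filter_upwards [hmono] with T hT t t' htt'
      have := hT (-t') (-t) (by linarith)
      show -G T (-t) ≤ -G T (-t')
      linarith) (fun t ht ε' hε' => by
      filter_upwards [h (-t) ⟨by linarith [ht.2], by linarith [ht.1]⟩ ε' hε'] with T hT
      show -G T (-t) ≤ _
      linarith) hε
  filter_upwards [h1] with T hT t ht
  have h2 := hT (-t) ⟨by linarith [ht.2], by linarith [ht.1]⟩
  have h3 : -G T (- -t) ≤ -t + -β + ε := h2
  rw [neg_neg] at h3
  linarith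

lemma cum_low (hRH : RiemannHypothesis) (hl : l ≤ atTop) {η : ℝ} (h : LH l η) {t : ℝ}
    (ht : 1 ≤ t) {ε : ℝ} (hε : 0 < ε) : ∀ᶠ T in l, t - η - ε ≤ cum T t := by
  have h1 := (Metric.tendsto_nhds.1 ((cum_lim hRH (b := 1 / 2) (by norm_num)
    (by norm_num)).mono_left hl)) (ε / 2) (by positivity)
  filter_upwards [h1, h (1 / 2) t (by norm_num) (by linarith) (ε / 2) (by positivity)] with T h1 h2
  rw [Real.dist_eq, abs_lt] at h1
  rw [mm_one_le ht, mm_le_one (x := 1 / 2) (by norm_num) (by norm_num)] at h2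
  linarith [h1.1]

lemma exists_A {s δ ε c : ℝ} (hs : 0 < s) (hε : 0 < ε) :
    ∃ A : ℝ, c ≤ A ∧ Real.exp (-s * A) * (A + δ + 1 / s) ≤ ε := by
  have h1 := (Real.tendsto_pow_mul_exp_neg_atTop_nhds_zero 1).comp
    (tendsto_id.const_mul_atTop hs)
  have h2 := (Real.tendsto_pow_mul_exp_neg_atTop_nhds_zero 0).comp
    (tendsto_id.const_mul_atTop hs)
  have h3 := (h1.const_mul (1 / s)).add (h2.const_mul (δ + 1 / s))
  rw [mul_zero, mul_zero, add_zero] at h3
  have h4 := (h3.eventually (gt_mem_nhds hε)).and (eventually_ge_atTop c)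
  obtain ⟨A, hA1, hA2⟩ := h4.exists
  refine ⟨A, hA2, le_of_eq_of_le ?_ hA1.le⟩
  simp only [Function.comp, id, pow_one, pow_zero, one_mul]
  rw [show -s * A = -(s * A) by ring]
  field_simp
  ring

lemma K2_eq (T : ℝ) (f : ℝ → ℝ) : K2 T f = NZ T * f 0 + E T f := by
  unfold E
  ring

lemma lap_total (hRH : RiemannHypothesis) {T : ℝ} (hT : 1 < T) {s : ℝ} (hs : 0 < s) {c A : ℝ}
    (hc : 0 ≤ c) (hcA : c ≤ A) :
    X T * ∫ a in c..A, s * Real.exp (-s * a) * cum T a ≤
      NZ T * (1 / s) + E T (fun x => ph s (Real.log T * x)) := by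
  have h5 := lap_lower hRH hT hs hc hcA
  rw [(lap_K2 hRH T hs).2] at h5
  refine h5.trans ?_
  have h6 : K2 T (fun x => 4 / (4 + x ^ 2) * ph s (Real.log T * x)) ≤
      K2 T (fun x => ph s (Real.log T * x)) := by
    refine K2_mono fun x => ?_
    have h7 : 4 / (4 + x ^ 2) ≤ 1 := by
      rw [div_le_one (by positivity)]
      linarith [sq_nonneg x]
    exact mul_le_of_le_one_left (ph_nonneg hs _) h7
  refine h6.trans (le_of_eq ?_)
  rw [K2_eq]
  have : ph s (Real.log T * 0) = 1 / s := by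
    unfold ph
    rw [mul_zero]
    field_simp
    ring
  rw [this]

/-- **the excess is at most the deficit plus a quarter of the density of the close pairs** -/
theorem balance (hRH : RiemannHypothesis) (hl : l ≤ atTop) {η κ : ℝ} (hκ : 0 ≤ κ)
    (hη : 0 ≤ η) (hlow : LH l η) (hrep : Rep l κ) {c : ℝ} (hc : 1 ≤ c) {ε : ℝ} (hε : 0 < ε) :
    ∀ᶠ T in l, cum T c ≤ c + η + κ / 4 + ε := by
  have hpi := Real.pi_pos
  set δ : ℝ := η + κ / 4 + ε with hδ
  have hδ0 : 0 < δ := by positivity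
  set κ₁ : ℝ := κ + ε / 2 with hκ₁
  have hκ₁0 : 0 < κ₁ := by positivity
  set κ' : ℝ := κ₁ / (2 * Real.pi) with hκ'
  have hκ'0 : 0 < κ' := by positivity
  obtain ⟨ε₀, hε₀, hr⟩ := hrep κ₁ (by rw [hκ₁]; linarith)
  set z₀ : ℝ := Real.pi * ε₀ with hz₀
  have hz₀0 : 0 < z₀ := by positivity
  set K : ℝ := (1 + 1 / z₀ ^ 2) * 100 + c * (c + δ) + 1 with hK
  have hc0 : 0 < c := by linarith
  have hK0 : 0 < K := by positivity
  set s : ℝ := ε / (16 * K) with hs
  have hs0 : 0 < s := by positivity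
  have hsK : s * K = ε / 16 := by
    rw [hs]
    field_simp
  have hs1 : s * ((1 + 1 / z₀ ^ 2) * 100) ≤ ε / 16 := by
    rw [← hsK]
    refine mul_le_mul_of_nonneg_left ?_ hs0.le
    rw [hK]
    have : 0 < c * (c + δ) := by positivity
    linarith
  have hs2 : s * (c * (c + δ)) ≤ ε / 16 := by
    rw [← hsK]
    refine mul_le_mul_of_nonneg_left ?_ hs0.le
    rw [hK]
    have : 0 < (1 + 1 / z₀ ^ 2) * 100 := by positivity
    linarith
  obtain ⟨n, hn⟩ := exists_nat_gt (16 * κ' * z₀ / (s * ε))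
  have hn0 : (0 : ℝ) < n := lt_of_le_of_lt (by positivity) hn
  have hn0' : 0 < n := by exact_mod_cast hn0
  set h : ℝ := z₀ / n with hh
  have hh0 : 0 < h := by positivity
  have hnh : n * h = z₀ := by
    rw [hh]
    field_simp
  have hh1 : κ' * (h / s) ≤ ε / 16 := by
    rw [div_lt_iff₀ (by positivity)] at hn
    rw [hh, div_div, ← mul_div_assoc, div_le_div_iff₀ (by positivity) (by norm_num)]
    nlinarith
  obtain ⟨A, hcA, hA⟩ := exists_A (s := s) (δ := δ) (ε := ε / 16) (c := c) hs0 (by positivity)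
  set B : ℝ := 1 + 1 / s + κ' * (h / s + Real.pi / 2) with hB
  have hB0 : 0 < B := by positivity
  set e : ℝ := ε / (16 * B) with he
  have he0 : 0 < e := by positivity
  have heB : e * B = ε / 16 := by
    rw [he]
    field_simp
  have hm : ∀ᶠ T in l, ∀ t t' : ℝ, t ≤ t' → cum T t ≤ cum T t' := by
    filter_upwards [(eventually_gt_atTop (1 : ℝ)).filter_mono hl] with T hT t t' htt'
    exact cum_mono hRH hT htt'
  have Ea := (NZ_asymp he0).filter_mono hl
  have Eb := (tail hRH).filter_mono hl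
  have Ec : ∀ᶠ T in l, ∀ j ∈ Finset.range n,
      E T (ind T ((j + 1) * h)) ≤ κ' * ((j + 1) * h) * NZ T := by
    rw [Filter.eventually_all_finset]
    intro j hj
    have hj' : ((j : ℝ) + 1) ≤ n := by
      have := Finset.mem_range.1 hj
      exact_mod_cast this
    have hj0 : (0 : ℝ) ≤ j := Nat.cast_nonneg _
    have h1 : ((j : ℝ) + 1) * h ≤ z₀ := by
      rw [← hnh]
      gcongr
    filter_upwards [hr ((j + 1) * h / (2 * Real.pi)) (by positivity) (by
      rw [div_lt_iff₀ (by positivity)]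
      nlinarith)] with T hT
    rw [show 2 * Real.pi * (((j : ℝ) + 1) * h / (2 * Real.pi)) = (j + 1) * h by
      field_simp] at hT
    refine hT.trans (le_of_eq ?_)
    rw [hκ']
    ring
  have Ed := unif_lower (l := l) (G := fun T t => cum T t - cum T c) (s := c) (A := A)
    (β := -c - η) hcA (by
      filter_upwards [hm] with T hT t t' htt'
      have := hT t t' htt'
      show cum T t - cum T c ≤ cum T t' - cum T c
      linarith) (fun t ht ε' hε' => by
    rcases eq_or_lt_of_le ht.1 with h0 | h0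
    · refine Eventually.of_forall fun T => ?_
      show _ ≤ cum T t - cum T c
      rw [← h0]
      linarith
    · filter_upwards [hlow c t hc0 h0 ε' hε'] with T hT
      rw [mm_one_le (hc.trans ht.1), mm_one_le hc] at hT
      show _ ≤ cum T t - cum T c
      linarith) he0
  filter_upwards [Ea, Eb, Ec, Ed, (eventually_gt_atTop (1 : ℝ)).filter_mono hl]
    with T ha hb hcl hd hT
  by_contra hcon
  push Not at hcon
  have hX := X_pos hT
  have hN := NZ_nonneg T
  have hcc := cum_cont hRH T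
  set δ' : ℝ := δ - η - e with hδ'
  have hδ'1 : δ' = κ / 4 + ε - e := by rw [hδ', hδ]; ring
  have heε : e ≤ ε / 16 := by
    rw [← heB]
    have : 1 ≤ B := by
      rw [hB]
      have : 0 ≤ 1 / s + κ' * (h / s + Real.pi / 2) := by positivity
      linarith
    exact le_mul_of_one_le_right he0.le this
  have hδ'0 : 0 ≤ δ' := by
    rw [hδ'1]
    linarith [div_nonneg hκ (by norm_num : (0 : ℝ) ≤ 4)]
  -- the lower bound
  have h1 : ∫ a in c..A, s * Real.exp (-s * a) * (a + δ') ≤
      ∫ a in c..A, s * Real.exp (-s * a) * cum T a := by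
    refine intervalIntegral.integral_mono_on hcA ?_ ?_ fun a ha' => ?_
    · exact (by fun_prop : Continuous fun a : ℝ =>
        s * Real.exp (-s * a) * (a + δ')).intervalIntegrable _ _
    · exact (by fun_prop : Continuous fun a : ℝ =>
        s * Real.exp (-s * a) * cum T a).intervalIntegrable _ _
    · have h2 : a + (-c - η) - e ≤ cum T a - cum T c := hd a ha'
      have h3 : a + δ' ≤ cum T a := by
        rw [hδ'1]
        linarith
      have := Real.exp_pos (-s * a)
      gcongr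
  rw [expl hs0] at h1
  have h2 : 1 - s * c ≤ Real.exp (-s * c) := by
    have := Real.add_one_le_exp (-s * c)
    linarith
  have h3 : 1 / s + δ' - ε / 16 ≤ Real.exp (-s * c) * (c + δ' + 1 / s) := by
    have h4 : (1 - s * c) * (c + δ' + 1 / s) ≤ Real.exp (-s * c) * (c + δ' + 1 / s) :=
      mul_le_mul_of_nonneg_right h2 (by positivity)
    have h5 : (1 - s * c) * (c + δ' + 1 / s) = 1 / s + δ' - s * (c * (c + δ')) := by
      field_simp
      ring
    have h6 : s * (c * (c + δ')) ≤ s * (c * (c + δ)) := by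
      gcongr
      rw [hδ']
      linarith
    linarith
  have h4 : Real.exp (-s * A) * (A + δ' + 1 / s) ≤ ε / 16 := by
    refine le_trans ?_ hA
    have := Real.exp_pos (-s * A)
    gcongr
    rw [hδ']
    linarith
  have h5 := lap_total hRH hT hs0 hc0.le hcA
  have h8 := E_ph (T := T) (s := s) (h := h) hs0 hh0 hn0' hcl hb hκ'0.le
  rw [hnh] at h8
  have h9 : X T * (1 / s + δ' - ε / 8) ≤ X T * ∫ a in c..A, s * Real.exp (-s * a) * cum T a := by
    gcongr
    linarith
  have h10 : NZ T * (1 / s) ≤ (1 + e) * X T * (1 / s) :=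
    mul_le_mul_of_nonneg_right ha.2 (by positivity)
  have h11 : κ' * NZ T * (h / s + Real.pi / 2) ≤
      κ' * ((1 + e) * X T) * (h / s + Real.pi / 2) := by
    gcongr
    exact ha.2
  have h12 : s * (1 + 1 / z₀ ^ 2) * (100 * X T) ≤ ε / 16 * X T := by
    have := mul_le_mul_of_nonneg_right hs1 hX.le
    linarith
  have h13 : X T * (1 / s + δ' - ε / 8) ≤ X T * ((1 + e) * (1 / s) +
      κ' * (1 + e) * (h / s + Real.pi / 2) + ε / 16) := by
    have e1 : X T * ((1 + e) * (1 / s) + κ' * (1 + e) * (h / s + Real.pi / 2) + ε / 16) =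
        (1 + e) * X T * (1 / s) + κ' * ((1 + e) * X T) * (h / s + Real.pi / 2) +
          ε / 16 * X T := by ring
    rw [e1]
    linarith
  have h14 := le_of_mul_le_mul_left h13 hX
  have h15 : κ' * (Real.pi / 2) = κ / 4 + ε / 8 := by
    rw [hκ', hκ₁]
    field_simp
    ring
  have h16 : e * (1 / s) + e * (κ' * (h / s + Real.pi / 2)) ≤ ε / 16 := by
    rw [← heB, hB]
    have e1 : e * (1 + 1 / s + κ' * (h / s + Real.pi / 2)) =
        e + (e * (1 / s) + e * (κ' * (h / s + Real.pi / 2))) := by ring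
    rw [e1]
    linarith
  have h17 : (1 + e) * (1 / s) + κ' * (1 + e) * (h / s + Real.pi / 2) + ε / 16 =
      1 / s + (e * (1 / s) + e * (κ' * (h / s + Real.pi / 2))) + κ' * (h / s) +
        κ' * (Real.pi / 2) + ε / 16 := by ring
  rw [h17, h15] at h14
  rw [hδ'1] at h14
  linarith

/-- **upper bounds from lower bounds and repulsion** -/
theorem upper (hRH : RiemannHypothesis) (hl : l ≤ atTop) {η κ : ℝ} (hκ : 0 ≤ κ)
    (hη : 0 ≤ η) (hlow : LH l η) (hrep : Rep l κ) {b c : ℝ} (hb : 0 < b) (hbc : b < c)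
    {ε : ℝ} (hε : 0 < ε) :
    ∀ᶠ T in l, cum T c - cum T b ≤ mm c - mm b + 2 * η + κ / 4 + ε := by
  have hκ4 : 0 ≤ κ / 4 := by positivity
  rcases lt_or_ge c 1 with hc1 | hc1
  · have h1 := (Metric.tendsto_nhds.1 ((cum_lim hRH hb (hbc.trans hc1)).mono_left hl)) (ε / 2)
      (by positivity)
    have h2 := (Metric.tendsto_nhds.1 ((cum_lim hRH (hb.trans hbc) hc1).mono_left hl)) (ε / 2)
      (by positivity)
    filter_upwards [h1, h2] with T h1 h2
    rw [Real.dist_eq, abs_lt] at h1 h2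
    rw [mm_le_one (hb.trans hbc).le hc1.le, mm_le_one hb.le (hbc.trans hc1).le]
    linarith [h1.1, h2.2]
  rcases lt_or_ge b 1 with hb1 | hb1
  · have h1 := (Metric.tendsto_nhds.1 ((cum_lim hRH hb hb1).mono_left hl)) (ε / 2)
      (by positivity)
    filter_upwards [h1, balance hRH hl hκ hη hlow hrep hc1 (ε := ε / 2) (by positivity)]
      with T h1 h2
    rw [Real.dist_eq, abs_lt] at h1
    rw [mm_one_le hc1, mm_le_one hb.le hb1.le]
    linarith [h1.1]
  · filter_upwards [cum_low hRH hl hlow hb1 (ε := ε / 2) (by positivity),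
      balance hRH hl hκ hη hlow hrep hc1 (ε := ε / 2) (by positivity)]
      with T h1 h2
    rw [mm_one_le hc1, mm_one_le hb1]
    linarith

/-- the averaged conjecture gives the repulsion -/
theorem rep_of_upper (hRH : RiemannHypothesis) (hl : l ≤ atTop) (h : ∀ A, UH l A 0) : Rep l 0 := by
  intro κ' hκ'
  have hpi := Real.pi_pos
  refine ⟨min (1 / (2 * Real.pi)) (κ' / (8 * Real.pi ^ 2)), by positivity, fun ε hε hε' => ?_⟩
  have h1 : ε < 1 / (2 * Real.pi) := hε'.trans_le (min_le_left _ _)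
  have h2 : ε < κ' / (8 * Real.pi ^ 2) := hε'.trans_le (min_le_right _ _)
  rw [lt_div_iff₀ (by positivity)] at h1 h2
  filter_upwards [repulsion hRH hl (ζ := 2 * Real.pi * ε) (by positivity) (by linarith) h]
    with T hT
  refine hT.trans ?_
  have hN := NZ_nonneg T
  have h3 : 2 * (2 * Real.pi * ε) ^ 2 ≤ κ' * ε := by nlinarith
  exact mul_le_mul_of_nonneg_right h3 hN

end Pool.Agent.Helper69.PC
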