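import Pool.Agent.Helper69.PC.Main

/-! Mean values of Montgomery's function and clusters of zeros. -/

open Filter Topology Complex MeasureTheory

namespace Pool.Agent.Helper69.PC

open H332B Pool.Agent.Helper84.OS

variable {l : Filter ℝ}

/-- the normalised Fejér kernel -/
noncomputable def fk (A z : ℝ) : ℝ := 2 / A ^ 2 * TA A z

lemma fk_zero {A : ℝ} (hA : 0 < A) : fk A 0 = 1 := by
  unfold fk
  rw [TA_zero]
  field_simp

lemma fk_nonneg {A : ℝ} (hA : 0 < A) (z : ℝ) : 0 ≤ fk A z := by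
  unfold fk
  have := TA_nonneg A z
  positivity

lemma TA_le {A : ℝ} (hA : 0 ≤ A) (z : ℝ) : TA A z ≤ A ^ 2 / 2 := by
  rw [← TA_zero A]
  unfold TA
  refine intervalIntegral.integral_mono_on hA ?_ ?_ fun α hα => ?_
  · exact (by fun_prop : Continuous fun α : ℝ => (A - α) * Real.cos (α * z)).intervalIntegrable _ _
  · exact (by fun_prop : Continuous fun α : ℝ => (A - α) * Real.cos (α * 0)).intervalIntegrable _ _
  · refine mul_le_mul_of_nonneg_left ?_ (by linarith [hα.2])
    rw [mul_zero, Real.cos_zero]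
    exact Real.cos_le_one _

lemma TA_eq {A z : ℝ} (hz : z ≠ 0) : TA A z = (1 - Real.cos (A * z)) / z ^ 2 := by
  unfold TA
  have hd : ∀ α ∈ Set.uIcc 0 A, HasDerivAt (fun α => (A - α) * (Real.sin (α * z) / z) -
      Real.cos (α * z) / z ^ 2) ((A - α) * Real.cos (α * z)) α := by
    intro α _
    have h1 : HasDerivAt (fun α : ℝ => α * z) z α := by
      simpa using (hasDerivAt_id α).mul_const z
    have h2 := (h1.sin).div_const z
    have h3 := (h1.cos).div_const (z ^ 2)
    have h4 : HasDerivAt (fun α : ℝ => A - α) (-1) α := by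
      simpa using (hasDerivAt_id α).const_sub A
    have h5 := (h4.mul h2).sub h3
    refine h5.congr_deriv ?_
    field_simp
    ring
  rw [intervalIntegral.integral_eq_sub_of_hasDerivAt hd
    ((by fun_prop : Continuous fun α : ℝ => (A - α) * Real.cos (α * z)).intervalIntegrable _ _)]
  simp only [sub_self, zero_mul, Real.sin_zero, zero_div, mul_zero, Real.cos_zero]
  ring

lemma fk_le_one {A : ℝ} (hA : 0 < A) (z : ℝ) : fk A z ≤ 1 := by
  unfold fk
  have h1 := TA_le hA.le z
  have h2 : 2 / A ^ 2 * TA A z ≤ 2 / A ^ 2 * (A ^ 2 / 2) := by gcongr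
  refine h2.trans (le_of_eq ?_)
  field_simp

lemma fk_le {A z : ℝ} (hA : 0 < A) (hz : z ≠ 0) : fk A z ≤ 4 / A ^ 2 / z ^ 2 := by
  unfold fk
  rw [TA_eq hz]
  have h1 : 1 - Real.cos (A * z) ≤ 2 := by linarith [Real.neg_one_le_cos (A * z)]
  have h2 : 2 / A ^ 2 * ((1 - Real.cos (A * z)) / z ^ 2) ≤ 2 / A ^ 2 * (2 / z ^ 2) := by gcongr
  refine h2.trans (le_of_eq ?_)
  ring

/-- the kernel is almost one near zero -/
lemma fk_ge {A z θ : ℝ} (hA : 0 < A) (h : A * |z| ≤ θ) : 1 - θ ^ 2 ≤ fk A z := by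
  have h1 : ∫ α in (0 : ℝ)..A, (A - α) * (1 - θ ^ 2 / 2) = A ^ 2 / 2 * (1 - θ ^ 2 / 2) := by
    rw [intervalIntegral.integral_mul_const, intervalIntegral.integral_sub (by simp) (by simp),
      intervalIntegral.integral_const, int_id, smul_eq_mul]
    ring
  have h2 : A ^ 2 / 2 * (1 - θ ^ 2 / 2) ≤ TA A z := by
    rw [← h1]
    unfold TA
    refine intervalIntegral.integral_mono_on hA.le ?_ ?_ fun α hα => ?_
    · exact (by fun_prop : Continuous fun α : ℝ => (A - α) * (1 - θ ^ 2 / 2)).intervalIntegrable _ _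
    · exact (by fun_prop : Continuous fun α : ℝ =>
        (A - α) * Real.cos (α * z)).intervalIntegrable _ _
    · refine mul_le_mul_of_nonneg_left ?_ (by linarith [hα.2])
      have h2 := Real.one_sub_sq_div_two_le_cos (x := α * z)
      have h3 : |α * z| ≤ θ := by
        rw [abs_mul, abs_of_nonneg hα.1]
        exact (mul_le_mul_of_nonneg_right hα.2 (abs_nonneg z)).trans h
      have h4 : (α * z) ^ 2 ≤ θ ^ 2 := by
        rw [← sq_abs]
        exact pow_le_pow_left₀ (abs_nonneg _) h3 2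
      linarith
  unfold fk
  have h3 : 2 / A ^ 2 * (A ^ 2 / 2 * (1 - θ ^ 2 / 2)) ≤ 2 / A ^ 2 * TA A z := by gcongr
  have h4 : 2 / A ^ 2 * (A ^ 2 / 2 * (1 - θ ^ 2 / 2)) = 1 - θ ^ 2 / 2 := by field_simp
  have h5 := sq_nonneg θ
  linarith

/-- the bound of the excess -/
lemma E_fk {T A ζ M : ℝ} (hA : 0 < A) (hζ : 0 < ζ)
    (htail : K2 T (fun x => 1 / (1 + (Real.log T * x) ^ 2)) ≤ M) :
    E T (fun x => fk A (Real.log T * x)) ≤
      E T (ind T ζ) + 4 / A ^ 2 * (1 + 1 / ζ ^ 2) * M := by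
  have h1 : E T (fun x => fk A (Real.log T * x)) ≤ E T (fun x => ind T ζ x +
      4 / A ^ 2 * (1 + 1 / ζ ^ 2) * (1 / (1 + (Real.log T * x) ^ 2))) := by
    refine E_mono fun x => ?_
    have e3 : 0 ≤ 4 / A ^ 2 * (1 + 1 / ζ ^ 2) * (1 / (1 + (Real.log T * x) ^ 2)) := by positivity
    rcases le_or_gt |Real.log T * x| ζ with h2 | h2
    · have e2 : ind T ζ x = 1 := by
        unfold ind
        rw [if_pos h2]
      rw [e2]
      have := fk_le_one hA (Real.log T * x)
      linarith
    · have e2 := ind_nonneg T ζ x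
      have hz : Real.log T * x ≠ 0 := by
        intro h
        rw [h, abs_zero] at h2
        linarith
      have e4 : ζ ^ 2 < (Real.log T * x) ^ 2 := by
        rw [← sq_abs (Real.log T * x)]
        exact pow_lt_pow_left₀ h2 hζ.le two_ne_zero
      have e5 := fk_le hA hz
      have e6 : 4 / A ^ 2 / (Real.log T * x) ^ 2 ≤
          4 / A ^ 2 * (1 + 1 / ζ ^ 2) * (1 / (1 + (Real.log T * x) ^ 2)) := by
        set z2 := (Real.log T * x) ^ 2 with hz2
        have hz0 : 0 < z2 := lt_trans (by positivity) e4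
        have e7 : 4 / A ^ 2 / z2 = 4 / A ^ 2 * (1 + 1 / z2) * (1 / (1 + z2)) := by
          field_simp
          ring
        rw [e7]
        gcongr
      linarith
  rw [E_add, E_smul] at h1
  have h2 : E T (fun x => 1 / (1 + (Real.log T * x) ^ 2)) ≤ M :=
    (E_le_K2 (by positivity)).trans htail
  have h3 : 4 / A ^ 2 * (1 + 1 / ζ ^ 2) * E T (fun x => 1 / (1 + (Real.log T * x) ^ 2)) ≤
      4 / A ^ 2 * (1 + 1 / ζ ^ 2) * M := by gcongr
  linarith

/-- the Fejér mean of `F` around `b` -/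
noncomputable def fm (T A b : ℝ) : ℝ :=
  (∫ t in (0 : ℝ)..A, (A - t) * (Wp T ((b + t) * Real.log T) + Wp T ((b - t) * Real.log T))) /
    (A ^ 2 * X T)

lemma wp_cos (hRH : RiemannHypothesis) (T α : ℝ) :
    Wp T (α * Real.log T) = K2 T (fun x => 4 / (4 + x ^ 2) *
      Real.cos (α * (Real.log T * x))) := by
  rw [wpc hRH]
  unfold K2
  refine Finset.sum_congr rfl fun s _ => Finset.sum_congr rfl fun s' _ => ?_
  simp only [mul_assoc]

lemma fm_eq (hRH : RiemannHypothesis) {T : ℝ} (hT : 1 < T) {A : ℝ} (hA : 0 < A) (b : ℝ) :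
    X T * fm T A b = K2 T (fun x => 4 / (4 + x ^ 2) *
      (fk A (Real.log T * x) * Real.cos (b * (Real.log T * x)))) := by
  have hX := X_pos hT
  have h1 : ∀ t : ℝ, (A - t) * (Wp T ((b + t) * Real.log T) + Wp T ((b - t) * Real.log T)) =
      ∑ s ∈ H343.ZSide.Z0 T, ∑ s' ∈ H343.ZSide.Z0 T,
        (H343.ZSide.mz s * H343.ZSide.mz s' * (4 / (4 + (s.im - s'.im) ^ 2) *
          (2 * Real.cos (b * (Real.log T * (s.im - s'.im)))))) *
        ((A - t) * Real.cos (t * (Real.log T * (s.im - s'.im)))) := by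
    intro t
    rw [wp_cos hRH, wp_cos hRH]
    unfold K2
    rw [← Finset.sum_add_distrib, Finset.mul_sum]
    refine Finset.sum_congr rfl fun s _ => ?_
    rw [← Finset.sum_add_distrib, Finset.mul_sum]
    refine Finset.sum_congr rfl fun s' _ => ?_
    beta_reduce
    rw [add_mul b t, sub_mul b t, Real.cos_add, Real.cos_sub]
    ring
  unfold fm
  have h2 : X T * ((∫ t in (0 : ℝ)..A, (A - t) * (Wp T ((b + t) * Real.log T) +
      Wp T ((b - t) * Real.log T))) / (A ^ 2 * X T)) = 1 / A ^ 2 * ∫ t in (0 : ℝ)..A, (A - t) *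
      (Wp T ((b + t) * Real.log T) + Wp T ((b - t) * Real.log T)) := by
    generalize (∫ t in (0 : ℝ)..A, (A - t) * (Wp T ((b + t) * Real.log T) +
      Wp T ((b - t) * Real.log T))) = J
    field_simp
  rw [h2]
  simp_rw [h1]
  have hc : ∀ z : ℝ, Continuous fun t : ℝ => (A - t) * Real.cos (t * z) := fun z => by fun_prop
  rw [intervalIntegral.integral_finsetSum]
  · unfold K2
    rw [Finset.mul_sum]
    refine Finset.sum_congr rfl fun s _ => ?_
    rw [intervalIntegral.integral_finsetSum]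
    · rw [Finset.mul_sum]
      refine Finset.sum_congr rfl fun s' _ => ?_
      rw [intervalIntegral.integral_const_mul]
      unfold fk TA
      ring
    · intro s' _
      exact ((hc _).const_mul _).intervalIntegrable _ _
  · intro s _
    refine (continuous_finsetSum _ fun s' _ => (hc _).const_mul _).intervalIntegrable _ _

/-- the Fejér means are controlled by the excess -/
lemma fm_bound (hRH : RiemannHypothesis) {T : ℝ} (hT : 1 < T) {A : ℝ} (hA : 0 < A) (b : ℝ) :
    |X T * fm T A b - NZ T| ≤ E T (fun x => fk A (Real.log T * x)) := by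
  rw [fm_eq hRH hT hA, K2_eq]
  have h0 : 4 / (4 + (0 : ℝ) ^ 2) * (fk A (Real.log T * 0) * Real.cos (b * (Real.log T * 0))) = 1 := by
    rw [mul_zero, mul_zero, Real.cos_zero, fk_zero hA]
    norm_num
  rw [h0, mul_one, add_sub_cancel_left, abs_le]
  have hw : ∀ x : ℝ, 0 ≤ 4 / (4 + x ^ 2) ∧ 4 / (4 + x ^ 2) ≤ 1 := by
    intro x
    refine ⟨by positivity, ?_⟩
    rw [div_le_one (by positivity)]
    linarith [sq_nonneg x]
  have hb : ∀ x : ℝ, |4 / (4 + x ^ 2) * (fk A (Real.log T * x) *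
      Real.cos (b * (Real.log T * x)))| ≤ fk A (Real.log T * x) := by
    intro x
    have h1 := fk_nonneg hA (Real.log T * x)
    rw [abs_mul, abs_mul, abs_of_nonneg (hw x).1, abs_of_nonneg h1]
    have h2 : fk A (Real.log T * x) * |Real.cos (b * (Real.log T * x))| ≤
        fk A (Real.log T * x) := mul_le_of_le_one_right h1 (Real.abs_cos_le_one _)
    have h3 : 0 ≤ fk A (Real.log T * x) * |Real.cos (b * (Real.log T * x))| := by positivity
    exact (mul_le_of_le_one_left h3 (hw x).2).trans h2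
  constructor
  · have h1 : E T (fun x => (-1) * fk A (Real.log T * x)) ≤ E T (fun x => 4 / (4 + x ^ 2) *
        (fk A (Real.log T * x) * Real.cos (b * (Real.log T * x)))) := by
      refine E_mono fun x => ?_
      have := (abs_le.1 (hb x)).1
      linarith
    rw [E_smul] at h1
    linarith
  · refine E_mono fun x => ?_
    exact (abs_le.1 (hb x)).2

end Pool.Agent.Helper69.PC
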