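import Pool.Agent.Helper69.PC.Mean

/-! Long windows. -/

open Filter Topology Complex MeasureTheory

namespace Pool.Agent.Helper69.PC

open H332B Pool.Agent.Helper84.OS

variable {l : Filter ℝ}

lemma int_K2 (T A : ℝ) (g : ℝ → ℝ) :
    ∫ t in (0 : ℝ)..A, (A - t) * K2 T (fun x => g x * Real.cos (t * (Real.log T * x))) =
      K2 T (fun x => g x * TA A (Real.log T * x)) := by
  have h1 : ∀ t : ℝ, (A - t) * K2 T (fun x => g x * Real.cos (t * (Real.log T * x))) =
      ∑ s ∈ H343.ZSide.Z0 T, ∑ s' ∈ H343.ZSide.Z0 T,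
        (H343.ZSide.mz s * H343.ZSide.mz s' * g (s.im - s'.im)) *
        ((A - t) * Real.cos (t * (Real.log T * (s.im - s'.im)))) := by
    intro t
    unfold K2
    rw [Finset.mul_sum]
    refine Finset.sum_congr rfl fun s _ => ?_
    rw [Finset.mul_sum]
    refine Finset.sum_congr rfl fun s' _ => ?_
    ring
  simp_rw [h1]
  have hc : ∀ z : ℝ, Continuous fun t : ℝ => (A - t) * Real.cos (t * z) := fun z => by fun_prop
  rw [intervalIntegral.integral_finsetSum]
  · unfold K2
    refine Finset.sum_congr rfl fun s _ => ?_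
    rw [intervalIntegral.integral_finsetSum]
    · refine Finset.sum_congr rfl fun s' _ => ?_
      rw [intervalIntegral.integral_const_mul]
      unfold TA
      ring
    · intro s' _
      exact ((hc _).const_mul _).intervalIntegrable _ _
  · intro s _
    refine (continuous_finsetSum _ fun s' _ => (hc _).const_mul _).intervalIntegrable _ _

lemma cum_diff (hRH : RiemannHypothesis) {T : ℝ} (hT : 1 < T) (a b t : ℝ) :
    X T * (cum T (b + t) - cum T (a + t)) = K2 T (fun x => 4 / (4 + x ^ 2) *
      ∫ c in a..b, Real.cos ((c + t) * (Real.log T * x))) := by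
  have hX := X_pos hT
  rw [cum_sub hRH, mul_div_cancel₀ _ hX.ne']
  have h := int_Wp hRH (R := fun _ => 1) continuous_const T (a + t) (b + t)
  simp only [one_mul] at h
  rw [h]
  congr 1
  funext x
  rw [← intervalIntegral.integral_comp_add_right (fun α => Real.cos (α * Real.log T * x)) t]
  simp only [mul_assoc]

lemma win (hRH : RiemannHypothesis) {T : ℝ} (hT : 1 < T) (a b t : ℝ) :
    X T * ((cum T (b + t) - cum T (a + t)) + (cum T (b - t) - cum T (a - t))) =
      K2 T (fun x => (4 / (4 + x ^ 2) * (2 * ∫ c in a..b, Real.cos (c * (Real.log T * x)))) *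
        Real.cos (t * (Real.log T * x))) := by
  have h1 := cum_diff hRH hT a b t
  have h2 := cum_diff hRH hT a b (-t)
  rw [← sub_eq_add_neg, ← sub_eq_add_neg] at h2
  rw [mul_add, h1, h2, ← K2_add]
  congr 1
  funext x
  have hc : ∀ t : ℝ, Continuous fun c : ℝ => Real.cos ((c + t) * (Real.log T * x)) :=
    fun t => by fun_prop
  rw [← mul_add, ← intervalIntegral.integral_add ((hc t).intervalIntegrable _ _)
    ((hc (-t)).intervalIntegrable _ _)]
  have h3 : ∀ c : ℝ, Real.cos ((c + t) * (Real.log T * x)) +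
      Real.cos ((c + -t) * (Real.log T * x)) =
      2 * Real.cos (t * (Real.log T * x)) * Real.cos (c * (Real.log T * x)) := by
    intro c
    rw [← sub_eq_add_neg, add_mul, sub_mul, Real.cos_add, Real.cos_sub]
    ring
  simp_rw [h3]
  rw [intervalIntegral.integral_const_mul]
  ring

/-- the smoothed mass of a window -/
noncomputable def sb (T A a b : ℝ) : ℝ := ∫ t in (0 : ℝ)..A, (A - t) *
  ((cum T (b + t) - cum T (a + t)) + (cum T (b - t) - cum T (a - t)))

lemma sb_eq (hRH : RiemannHypothesis) {T : ℝ} (hT : 1 < T) (A a b : ℝ) :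
    X T * sb T A a b = K2 T (fun x => (4 / (4 + x ^ 2) *
      (2 * ∫ c in a..b, Real.cos (c * (Real.log T * x)))) * TA A (Real.log T * x)) := by
  unfold sb
  rw [← intervalIntegral.integral_const_mul, ← int_K2]
  congr 1
  funext t
  rw [← win hRH hT a b t]
  ring

lemma w_le (x : ℝ) : 0 ≤ 4 / (4 + x ^ 2) ∧ 4 / (4 + x ^ 2) ≤ 1 := by
  refine ⟨by positivity, ?_⟩
  rw [div_le_one (by positivity)]
  linarith [sq_nonneg x]

lemma sb_bound (hRH : RiemannHypothesis) {T : ℝ} (hT : 1 < T) {A a b : ℝ} (hA : 0 < A)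
    (hab : a ≤ b) : |X T * sb T A a b - NZ T * ((b - a) * A ^ 2)| ≤
      (b - a) * A ^ 2 * E T (fun x => fk A (Real.log T * x)) := by
  have hba : 0 ≤ b - a := by linarith
  rw [sb_eq hRH hT, K2_eq]
  have h0 : (4 / (4 + (0 : ℝ) ^ 2) *
      (2 * ∫ c in a..b, Real.cos (c * (Real.log T * 0)))) * TA A (Real.log T * 0) =
      (b - a) * A ^ 2 := by
    simp only [mul_zero, Real.cos_zero]
    rw [TA_zero, intervalIntegral.integral_const, smul_eq_mul]
    norm_num
    ring
  rw [h0, add_sub_cancel_left, ← E_smul, abs_le]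
  have hb : ∀ x : ℝ, |(4 / (4 + x ^ 2) *
      (2 * ∫ c in a..b, Real.cos (c * (Real.log T * x)))) * TA A (Real.log T * x)| ≤
      (b - a) * A ^ 2 * fk A (Real.log T * x) := by
    intro x
    have h1 := TA_nonneg A (Real.log T * x)
    have h2 : |∫ c in a..b, Real.cos (c * (Real.log T * x))| ≤ b - a := by
      have h3 := intervalIntegral.norm_integral_le_of_norm_le_const (a := a) (b := b) (C := 1)
        (f := fun c => Real.cos (c * (Real.log T * x)))
        (fun c _ => by
          rw [Real.norm_eq_abs]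
          exact Real.abs_cos_le_one _)
      rw [one_mul, abs_of_nonneg hba, Real.norm_eq_abs] at h3
      exact h3
    rw [abs_mul, abs_mul, abs_mul, abs_of_nonneg (w_le x).1, abs_of_nonneg h1,
      abs_of_pos (by norm_num : (0 : ℝ) < 2)]
    have h4 : 4 / (4 + x ^ 2) * (2 * |∫ c in a..b, Real.cos (c * (Real.log T * x))|) *
        TA A (Real.log T * x) ≤ 1 * (2 * (b - a)) * TA A (Real.log T * x) := by
      gcongr
      exact (w_le x).2
    refine h4.trans (le_of_eq ?_)
    unfold fk
    field_simp
  constructor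
  · have h1 : E T (fun x => (-1) * ((b - a) * A ^ 2 * fk A (Real.log T * x))) ≤
        E T (fun x => (4 / (4 + x ^ 2) *
      (2 * ∫ c in a..b, Real.cos (c * (Real.log T * x)))) * TA A (Real.log T * x)) := by
      refine E_mono fun x => ?_
      have := (abs_le.1 (hb x)).1
      linarith
    rw [E_smul] at h1
    linarith
  · refine E_mono fun x => ?_
    exact (abs_le.1 (hb x)).2

lemma tri (A D : ℝ) : ∫ t in (0 : ℝ)..A, (A - t) * (2 * D) = A ^ 2 * D := by
  rw [intervalIntegral.integral_mul_const, intervalIntegral.integral_sub (by simp) (by simp),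
    intervalIntegral.integral_const, int_id, smul_eq_mul]
  ring

lemma sb_cont (hRH : RiemannHypothesis) (T A a b : ℝ) : Continuous fun t : ℝ => (A - t) *
    ((cum T (b + t) - cum T (a + t)) + (cum T (b - t) - cum T (a - t))) := by
  have := cum_cont hRH T
  fun_prop

lemma box_le (hRH : RiemannHypothesis) {T : ℝ} (hT : 1 < T) {A a b : ℝ} (hA : 0 < A)
    (hab : a ≤ b) : X T * (cum T b - cum T a) ≤
      (b - a + 2 * A) * (NZ T + E T (fun x => fk A (Real.log T * x))) := by
  have h1 := (abs_le.1 (sb_bound hRH hT (A := A) (a := a - A) (b := b + A) hA (by linarith))).2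
  have h2 : A ^ 2 * (cum T b - cum T a) ≤ sb T A (a - A) (b + A) := by
    rw [← tri]
    unfold sb
    refine intervalIntegral.integral_mono_on hA.le
      ((by fun_prop : Continuous fun t : ℝ => (A - t) *
        (2 * (cum T b - cum T a))).intervalIntegrable _ _)
      ((sb_cont hRH T A _ _).intervalIntegrable _ _) fun t ht => ?_
    refine mul_le_mul_of_nonneg_left ?_ (by linarith [ht.2])
    have e1 : cum T b ≤ cum T (b + A + t) := cum_mono hRH hT (by linarith [ht.1])
    have e2 : cum T (a - A + t) ≤ cum T a := cum_mono hRH hT (by linarith [ht.2])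
    have e3 : cum T b ≤ cum T (b + A - t) := cum_mono hRH hT (by linarith [ht.2])
    have e4 : cum T (a - A - t) ≤ cum T a := cum_mono hRH hT (by linarith [ht.1])
    linarith
  have hX := X_pos hT
  have hA2 : 0 < A ^ 2 := by positivity
  refine le_of_mul_le_mul_left ?_ hA2
  have h3 : X T * (A ^ 2 * (cum T b - cum T a)) ≤ X T * sb T A (a - A) (b + A) := by gcongr
  nlinarith

lemma box_ge (hRH : RiemannHypothesis) {T : ℝ} (hT : 1 < T) {A a b : ℝ} (hA : 0 < A)
    (hab : 2 * A ≤ b - a) : (b - a - 2 * A) * (NZ T - E T (fun x => fk A (Real.log T * x))) ≤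
      X T * (cum T b - cum T a) := by
  have h1 := (abs_le.1 (sb_bound hRH hT (A := A) (a := a + A) (b := b - A) hA (by linarith))).1
  have h2 : sb T A (a + A) (b - A) ≤ A ^ 2 * (cum T b - cum T a) := by
    rw [← tri]
    unfold sb
    refine intervalIntegral.integral_mono_on hA.le
      ((sb_cont hRH T A _ _).intervalIntegrable _ _)
      ((by fun_prop : Continuous fun t : ℝ => (A - t) *
        (2 * (cum T b - cum T a))).intervalIntegrable _ _) fun t ht => ?_
    refine mul_le_mul_of_nonneg_left ?_ (by linarith [ht.2])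
    have e1 : cum T (b - A + t) ≤ cum T b := cum_mono hRH hT (by linarith [ht.2])
    have e2 : cum T a ≤ cum T (a + A + t) := cum_mono hRH hT (by linarith [ht.1])
    have e3 : cum T (b - A - t) ≤ cum T b := cum_mono hRH hT (by linarith [ht.1])
    have e4 : cum T a ≤ cum T (a + A - t) := cum_mono hRH hT (by linarith [ht.2])
    linarith
  have hX := X_pos hT
  have hA2 : 0 < A ^ 2 := by positivity
  refine le_of_mul_le_mul_left ?_ hA2
  have h3 : X T * sb T A (a + A) (b - A) ≤ X T * (A ^ 2 * (cum T b - cum T a)) := by gcongr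
  nlinarith

end Pool.Agent.Helper69.PC
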