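import Pool.Agent.Helper69.PC.Mean2

/-! Clusters and mean values. -/

open Filter Topology Complex MeasureTheory

namespace Pool.Agent.Helper69.PC

open H332B Pool.Agent.Helper84.OS

variable {l : Filter ℝ}

/-- the density of the clusters is at most `p` -/
def CL (l : Filter ℝ) (p : ℝ) : Prop := ∀ δ : ℝ, 0 < δ → ∃ ζ₀ : ℝ, 0 < ζ₀ ∧ ∀ ζ : ℝ, 0 < ζ →
  ζ < ζ₀ → ∀ᶠ T in l, E T (ind T ζ) ≤ (p + δ) * NZ T

/-- the density of the clusters is at least `p` -/
def CU (l : Filter ℝ) (p : ℝ) : Prop := ∀ δ : ℝ, 0 < δ → ∀ ζ : ℝ, 0 < ζ →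
  ∀ᶠ T in l, (p - δ) * NZ T ≤ E T (ind T ζ)

/-- upper bound of the mean value -/
def MU (l : Filter ℝ) (m : ℝ) : Prop := ∀ δ : ℝ, 0 < δ → ∃ A₀ : ℝ, 0 < A₀ ∧ ∀ A : ℝ, A₀ ≤ A →
  ∀ᶠ T in l, cum T A ≤ (m + δ) * A

/-- lower bound of the mean value -/
def ML (l : Filter ℝ) (m : ℝ) : Prop := ∀ δ : ℝ, 0 < δ → ∃ A₀ : ℝ, 0 < A₀ ∧ ∀ A : ℝ, A₀ ≤ A →
  ∀ᶠ T in l, (m - δ) * A ≤ cum T A

/-- mean values over all long windows -/
def MA (l : Filter ℝ) (p : ℝ) : Prop := ∀ δ : ℝ, 0 < δ → ∃ A₀ : ℝ, 0 < A₀ ∧ ∀ A : ℝ, A₀ ≤ A →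
  ∀ᶠ T in l, ∀ b : ℝ, |cum T (b + A) - cum T b - A| ≤ (p + δ) * A

lemma ex_up (hRH : RiemannHypothesis) (hl : l ≤ atTop) {p : ℝ} (hp : 0 ≤ p) (h : CL l p)
    {δ : ℝ} (hδ : 0 < δ) : ∃ B₀ : ℝ, 0 < B₀ ∧ ∀ B : ℝ, B₀ ≤ B →
      ∀ᶠ T in l, E T (fun x => fk B (Real.log T * x)) ≤ (p + δ) * X T := by
  obtain ⟨ζ₀, hζ₀, h1⟩ := h (δ / 4) (by positivity)
  set ζ : ℝ := ζ₀ / 2 with hζ
  have hζ0 : 0 < ζ := by positivity
  set e : ℝ := (δ / 4) / (p + δ / 4) with he
  have he0 : 0 < e := by positivity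
  have he1 : (p + δ / 4) * e = δ / 4 := by
    rw [he]
    field_simp
  set K : ℝ := 800 * (1 + 1 / ζ ^ 2) / δ with hK
  have hK0 : 0 < K := by positivity
  refine ⟨K + 1, by positivity, fun B hB => ?_⟩
  have hB0 : 0 < B := by linarith
  have hB1 : 4 / B ^ 2 * (1 + 1 / ζ ^ 2) * 100 ≤ δ / 2 := by
    have h2 : K ≤ B ^ 2 := by nlinarith
    rw [hK, div_le_iff₀ hδ] at h2
    have h3 : 4 / B ^ 2 * (1 + 1 / ζ ^ 2) * 100 = 800 * (1 + 1 / ζ ^ 2) / (2 * B ^ 2) := by ring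
    rw [h3, div_le_iff₀ (by positivity)]
    linarith
  filter_upwards [h1 ζ hζ0 (by rw [hζ]; linarith), (NZ_asymp he0).filter_mono hl,
    (tail hRH).filter_mono hl, (eventually_gt_atTop (1 : ℝ)).filter_mono hl] with T h2 h3 h4 hT
  have hX := X_pos hT
  have h5 := E_fk hB0 hζ0 h4
  have h6 : (p + δ / 4) * NZ T ≤ (p + δ / 4) * ((1 + e) * X T) := by
    gcongr
    exact h3.2
  have h7 : 4 / B ^ 2 * (1 + 1 / ζ ^ 2) * (100 * X T) ≤ δ / 2 * X T := by
    rw [← mul_assoc]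
    gcongr
  have h8 : (p + δ / 4) * ((1 + e) * X T) = (p + δ / 4) * X T + (p + δ / 4) * e * X T := by ring
  rw [h8, he1] at h6
  linarith

/-- the smoothed mean value -/
lemma mean_K2 (hRH : RiemannHypothesis) {T : ℝ} (hT : 1 < T) {B : ℝ} (hB : 0 < B) :
    X T * (2 / B ^ 2 * ∫ a in (0 : ℝ)..B, cum T a) =
      NZ T + E T (fun x => 4 / (4 + x ^ 2) * fk B (Real.log T * x)) := by
  have h1 := cum_K2 hRH hT B
  have h2 : X T * (2 / B ^ 2 * ∫ a in (0 : ℝ)..B, cum T a) =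
      2 / B ^ 2 * (X T * ∫ a in (0 : ℝ)..B, cum T a) := by ring
  rw [h2, h1, ← K2_smul]
  have h3 : (fun x => 2 / B ^ 2 * (4 / (4 + x ^ 2) * TA B (Real.log T * x))) =
      fun x => 4 / (4 + x ^ 2) * fk B (Real.log T * x) := by
    funext x
    unfold fk
    ring
  rw [h3, K2_eq]
  rw [mul_zero, fk_zero hB]
  norm_num

lemma mean_le (hRH : RiemannHypothesis) {T : ℝ} (hT : 1 < T) {B : ℝ} (hB : 0 < B) :
    X T * (2 / B ^ 2 * ∫ a in (0 : ℝ)..B, cum T a) ≤
      NZ T + E T (fun x => fk B (Real.log T * x)) := by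
  rw [mean_K2 hRH hT hB]
  have h1 : E T (fun x => 4 / (4 + x ^ 2) * fk B (Real.log T * x)) ≤
      E T (fun x => fk B (Real.log T * x)) :=
    E_mono fun x => mul_le_of_le_one_left (fk_nonneg hB _) (w_le x).2
  linarith

lemma mean_ge (hRH : RiemannHypothesis) {B ζ θ : ℝ} (hB : 0 < B) (hζ : 0 < ζ) (hθ : 0 < θ)
    (hθ1 : θ ≤ 1) (h : B * ζ ≤ θ) : ∀ᶠ T in atTop, NZ T + (1 - 2 * θ ^ 2) * E T (ind T ζ) ≤
      X T * (2 / B ^ 2 * ∫ a in (0 : ℝ)..B, cum T a) := by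
  have h2 : ∀ᶠ T : ℝ in atTop, ζ / θ ≤ Real.log T :=
    Real.tendsto_log_atTop.eventually_ge_atTop _
  filter_upwards [h2, eventually_gt_atTop (1 : ℝ)] with T h2 hT
  rw [mean_K2 hRH hT hB, ← E_smul]
  have hL := Real.log_pos hT
  have h3 : E T (fun x => (1 - 2 * θ ^ 2) * ind T ζ x) ≤
      E T (fun x => 4 / (4 + x ^ 2) * fk B (Real.log T * x)) := by
    refine E_mono fun x => ?_
    unfold ind
    split_ifs with h4
    · have h5 : B * |Real.log T * x| ≤ θ := by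
        have : B * |Real.log T * x| ≤ B * ζ := by gcongr
        linarith
      have h6 := fk_ge hB h5
      have h7 : |x| ≤ θ := by
        rw [abs_mul, abs_of_pos hL] at h4
        rw [div_le_iff₀ hθ] at h2
        have : Real.log T * |x| ≤ Real.log T * θ := by linarith
        exact le_of_mul_le_mul_left this hL
      have h8 : x ^ 2 ≤ θ ^ 2 := by
        rw [← sq_abs]
        exact pow_le_pow_left₀ (abs_nonneg _) h7 2
      have h9 : 1 - θ ^ 2 ≤ 4 / (4 + x ^ 2) := by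
        rw [le_div_iff₀ (by positivity)]
        nlinarith [sq_nonneg x, sq_nonneg θ, mul_nonneg (sq_nonneg x) (sq_nonneg θ)]
      have h10 : θ ^ 2 ≤ 1 := by nlinarith
      have h11 : (1 - θ ^ 2) * (1 - θ ^ 2) ≤ 4 / (4 + x ^ 2) * fk B (Real.log T * x) := by
        have := (w_le x).1
        gcongr
      nlinarith [sq_nonneg (θ ^ 2)]
    · have h5 := fk_nonneg hB (Real.log T * x)
      have h6 := (w_le x).1
      rw [mul_zero]
      positivity
  linarith

/-- **clusters control all the long windows** -/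
theorem cl_ma (hRH : RiemannHypothesis) (hl : l ≤ atTop) {p : ℝ} (hp : 0 ≤ p) (h : CL l p) :
    MA l p := by
  intro δ hδ
  obtain ⟨B, hB, h1⟩ := ex_up hRH hl hp h (δ := δ / 4) (by positivity)
  refine ⟨4 * B * (1 + p + δ) / δ, by positivity, fun A hA => ?_⟩
  rw [div_le_iff₀ hδ] at hA
  have hA0 : 0 < A := by
    have : 0 < 4 * B * (1 + p + δ) := by positivity
    have h2 : 0 < A * δ := by linarith
    exact (mul_pos_iff_of_pos_right hδ).1 h2
  have hBA : 2 * B ≤ A := by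
    have h2 : 2 * B * δ ≤ A * δ := by nlinarith [mul_pos hB hδ, mul_nonneg hB.le hp]
    exact le_of_mul_le_mul_right h2 hδ
  filter_upwards [h1 B le_rfl, (NZ_asymp (show 0 < δ / 4 by positivity)).filter_mono hl,
    (eventually_gt_atTop (1 : ℝ)).filter_mono hl] with T h2 h3 hT b
  have hX := X_pos hT
  have h4 := box_le hRH hT (A := B) (a := b) (b := b + A) hB (by linarith)
  have h5 := box_ge hRH hT (A := B) (a := b) (b := b + A) hB (by linarith)
  rw [add_sub_cancel_left] at h4 h5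
  have h6 : X T * (cum T (b + A) - cum T b) ≤ X T * ((A + 2 * B) * (1 + p + δ / 2)) := by
    have : (A + 2 * B) * (NZ T + E T (fun x => fk B (Real.log T * x))) ≤
        (A + 2 * B) * ((1 + p + δ / 2) * X T) := by
      gcongr
      linarith [h3.2]
    linarith
  have h7 : X T * ((A - 2 * B) * (1 - p - δ / 2)) ≤ X T * (cum T (b + A) - cum T b) := by
    have : (A - 2 * B) * ((1 - p - δ / 2) * X T) ≤
        (A - 2 * B) * (NZ T - E T (fun x => fk B (Real.log T * x))) := by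
      refine mul_le_mul_of_nonneg_left ?_ (by linarith)
      linarith [h3.1]
    linarith
  have h8 := le_of_mul_le_mul_left h6 hX
  have h9 := le_of_mul_le_mul_left h7 hX
  rw [abs_le]
  constructor
  · nlinarith [mul_pos hB hδ, mul_nonneg hB.le hp]
  · nlinarith [mul_pos hB hδ, mul_nonneg hB.le hp]

lemma ma_mu {p : ℝ} (h : MA l p) : MU l (1 + p) := by
  intro δ hδ
  obtain ⟨A₀, hA₀, h1⟩ := h δ hδ
  refine ⟨A₀, hA₀, fun A hA => ?_⟩
  filter_upwards [h1 A hA] with T hT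
  have h2 := (abs_le.1 (hT 0)).2
  have h3 : cum T 0 = 0 := by
    unfold cum
    simp
  rw [zero_add, h3] at h2
  linarith

lemma int_up (hRH : RiemannHypothesis) (hl : l ≤ atTop) {m : ℝ} (hm : 0 < m) (h : MU l m)
    {δ : ℝ} (hδ : 0 < δ) : ∃ A₁ : ℝ, 0 < A₁ ∧ ∀ A : ℝ, A₁ ≤ A →
      ∀ᶠ T in l, 2 / A ^ 2 * ∫ a in (0 : ℝ)..A, cum T a ≤ m + δ := by
  obtain ⟨A₀, hA₀, h1⟩ := h (δ / 4) (by positivity)
  set m' : ℝ := m + δ / 4 with hm'
  have hm'0 : 0 < m' := by positivity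
  refine ⟨A₀ + 4 * (m + δ) * (1 + A₀) / δ, by positivity, fun A hA => ?_⟩
  have h0 : 0 < 4 * (m + δ) * (1 + A₀) / δ := by positivity
  have hA0 : A₀ ≤ A := by linarith
  have hA00 : 0 < A := by linarith
  have hA1 : 4 * (m + δ) * (1 + A₀) ≤ A * δ := by
    rw [← div_le_iff₀ hδ]
    linarith
  have hl1 : ∀ᶠ T in l, (1 : ℝ) < T := (eventually_gt_atTop (1 : ℝ)).filter_mono hl
  have hu := unif (l := l) (G := fun T t => cum T t / m') (s := A₀) (A := A) (β := 0) hA0 (by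
    filter_upwards [hl1] with T hT t t' htt'
    have := cum_mono hRH hT htt'
    show cum T t / m' ≤ cum T t' / m'
    gcongr) (fun t ht ε hε => by
      filter_upwards [h1 t ht.1] with T hT
      show cum T t / m' ≤ _
      rw [div_le_iff₀ hm'0]
      nlinarith) (ε := 1) one_pos
  filter_upwards [hu, hl1] with T hT hT1
  have h2 : ∀ t ∈ Set.Icc 0 A, cum T t ≤ m' * (t + (1 + A₀)) := by
    intro t ht
    rcases le_total A₀ t with h3 | h3
    · have h4 : cum T t / m' ≤ t + 0 + 1 := hT t ⟨h3, ht.2⟩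
      rw [div_le_iff₀ hm'0] at h4
      nlinarith
    · have h4 : cum T A₀ / m' ≤ A₀ + 0 + 1 := hT A₀ ⟨le_rfl, hA0⟩
      rw [div_le_iff₀ hm'0] at h4
      have h5 := cum_mono hRH hT1 h3
      nlinarith [ht.1]
  have h3 : ∫ a in (0 : ℝ)..A, cum T a ≤ ∫ a in (0 : ℝ)..A, m' * (a + (1 + A₀)) := by
    refine intervalIntegral.integral_mono_on hA00.le ((cum_cont hRH T).intervalIntegrable _ _)
      ((by fun_prop : Continuous fun a : ℝ => m' * (a + (1 + A₀))).intervalIntegrable _ _) h2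
  have h4 : ∫ a in (0 : ℝ)..A, m' * (a + (1 + A₀)) = m' * (A ^ 2 / 2 + A * (1 + A₀)) := by
    rw [intervalIntegral.integral_const_mul, intervalIntegral.integral_add (by simp) (by simp),
      intervalIntegral.integral_const, int_id, smul_eq_mul]
    ring
  rw [h4] at h3
  have h5 : m' * (A ^ 2 / 2 + A * (1 + A₀)) ≤ (m + δ) * (A ^ 2 / 2) := by
    have h6 : m' * (1 + A₀) ≤ A * δ * (3 / 8) := by
      have : m' * (1 + A₀) ≤ (m + δ) * (1 + A₀) := by
        gcongr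
        rw [hm']
        linarith
      nlinarith [mul_pos hA00 hδ]
    have h7 : A * (m' * (1 + A₀)) ≤ A * (A * δ * (3 / 8)) := by gcongr
    rw [hm'] at h7 ⊢
    linarith
  have h6 : 2 / A ^ 2 * ∫ a in (0 : ℝ)..A, cum T a ≤ 2 / A ^ 2 * ((m + δ) * (A ^ 2 / 2)) := by
    gcongr
    linarith
  refine h6.trans (le_of_eq ?_)
  field_simp

/-- **mean values control the clusters** -/
theorem mu_cl (hRH : RiemannHypothesis) (hl : l ≤ atTop) {p : ℝ} (hp : 0 ≤ p)
    (h : MU l (1 + p)) : CL l p := by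
  intro δ hδ
  obtain ⟨A, hA, h1⟩ := int_up hRH hl (by positivity) h (δ := δ / 4) (by positivity)
  set θ : ℝ := δ / (8 * (p + δ)) with hθ
  have hθ0 : 0 < θ := by positivity
  have hθ1 : (p + δ) * θ = δ / 8 := by
    rw [hθ]
    field_simp
  have hθ2 : θ ≤ 1 / 8 := by
    rw [hθ, div_le_div_iff₀ (by positivity) (by norm_num)]
    linarith
  refine ⟨θ / A, by positivity, fun ζ hζ hζ' => ?_⟩
  rw [lt_div_iff₀ hA] at hζ'
  set e : ℝ := δ / (4 * (1 + p + δ)) with he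
  have he0 : 0 < e := by positivity
  have he1 : (1 + p + δ) * e = δ / 4 := by
    rw [he]
    field_simp
  filter_upwards [h1 A le_rfl, (mean_ge hRH hA hζ hθ0 (by linarith)
    (by linarith)).filter_mono hl, (NZ_asymp he0).filter_mono hl,
    (eventually_gt_atTop (1 : ℝ)).filter_mono hl] with T h2 h3 h4 hT
  have hX := X_pos hT
  by_contra hcon
  push Not at hcon
  have h5 : X T * (2 / A ^ 2 * ∫ a in (0 : ℝ)..A, cum T a) ≤ X T * (1 + p + δ / 4) := by
    gcongr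
  have hθ3 : 2 * θ ^ 2 ≤ θ := by nlinarith
  have h6 : (1 - θ) * ((p + δ) * NZ T) ≤ (1 - 2 * θ ^ 2) * E T (ind T ζ) := by
    have hE : 0 ≤ E T (ind T ζ) := E_nonneg fun x => ind_nonneg T ζ x
    have h7 : (1 - θ) * ((p + δ) * NZ T) ≤ (1 - θ) * E T (ind T ζ) :=
      mul_le_mul_of_nonneg_left hcon.le (by linarith)
    have h8 : (1 - θ) * E T (ind T ζ) ≤ (1 - 2 * θ ^ 2) * E T (ind T ζ) :=
      mul_le_mul_of_nonneg_right (by linarith) hE
    linarith
  have h7 : (1 - θ) * ((p + δ) * NZ T) = (p + δ - δ / 8) * NZ T := by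
    rw [← hθ1]
    ring
  rw [h7] at h6
  have h8 : (1 + (p + δ - δ / 8)) * ((1 - e) * X T) ≤ (1 + (p + δ - δ / 8)) * NZ T := by
    refine mul_le_mul_of_nonneg_left h4.1 ?_
    have : 0 < δ := hδ
    linarith
  have h9 : X T * ((1 + (p + δ - δ / 8)) * (1 - e)) ≤ X T * (1 + p + δ / 4) := by
    linarith
  have h10 := le_of_mul_le_mul_left h9 hX
  have h11 : e * (δ / 8) ≤ e * (1 + p + δ) := by
    gcongr
    linarith
  have h12 : 0 < e * δ := by positivity
  linarith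

lemma int_up' (hRH : RiemannHypothesis) (hl : l ≤ atTop) {p : ℝ} (hp : 0 ≤ p) (h : CL l p)
    {δ : ℝ} (hδ : 0 < δ) : ∃ B₀ : ℝ, 0 < B₀ ∧ ∀ B : ℝ, B₀ ≤ B →
      ∀ᶠ T in l, 2 / B ^ 2 * ∫ a in (0 : ℝ)..B, cum T a ≤ 1 + p + δ := by
  obtain ⟨B₀, hB₀, h1⟩ := ex_up hRH hl hp h (δ := δ / 2) (by positivity)
  refine ⟨B₀, hB₀, fun B hB => ?_⟩
  have hB0 : 0 < B := by linarith
  filter_upwards [h1 B hB, (NZ_asymp (show 0 < δ / 2 by positivity)).filter_mono hl,
    (eventually_gt_atTop (1 : ℝ)).filter_mono hl] with T h2 h3 hT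
  have hX := X_pos hT
  have h6 := mean_le hRH hT hB0
  have h7 : X T * (2 / B ^ 2 * ∫ a in (0 : ℝ)..B, cum T a) ≤ X T * (1 + p + δ) := by
    linarith [h3.2]
  exact le_of_mul_le_mul_left h7 hX

lemma int_lo (hRH : RiemannHypothesis) (hl : l ≤ atTop) {p : ℝ} (hp : 0 ≤ p)
    (h : CU l p) {δ : ℝ} (hδ : 0 < δ) (hδ1 : δ ≤ 1) {A : ℝ} (hA : 0 < A) :
    ∀ᶠ T in l, 1 + p - δ ≤ 2 / A ^ 2 * ∫ a in (0 : ℝ)..A, cum T a := by
  set θ : ℝ := δ / (8 * (p + 1)) with hθ
  have hθ0 : 0 < θ := by positivity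
  have hθ1 : (p + 1) * θ = δ / 8 := by
    rw [hθ]
    field_simp
  have hθ2 : θ ≤ 1 / 8 := by
    rw [hθ, div_le_div_iff₀ (by positivity) (by norm_num)]
    linarith
  set ζ : ℝ := θ / A with hζ
  have hζ0 : 0 < ζ := by positivity
  have hζ1 : A * ζ ≤ θ := by
    rw [hζ]
    refine le_of_eq ?_
    field_simp
  filter_upwards [h (δ / 8) (by positivity) ζ hζ0,
    (mean_ge hRH hA hζ0 hθ0 (by linarith) hζ1).filter_mono hl, (NZ_asymp hθ0).filter_mono hl,
    (eventually_gt_atTop (1 : ℝ)).filter_mono hl] with T h3 h4 h5 hT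
  have hX := X_pos hT
  have hN := NZ_nonneg T
  have hE : 0 ≤ E T (ind T ζ) := E_nonneg fun x => ind_nonneg T ζ x
  have hθ3 : 2 * θ ^ 2 ≤ θ := by nlinarith
  have h11 : (1 - θ) * E T (ind T ζ) ≤ (1 - 2 * θ ^ 2) * E T (ind T ζ) :=
    mul_le_mul_of_nonneg_right (by linarith) hE
  have h12 : (1 - θ) * ((p - δ / 8) * NZ T) ≤ (1 - θ) * E T (ind T ζ) :=
    mul_le_mul_of_nonneg_left h3 (by linarith)
  have h13 : (p - δ / 4) * NZ T ≤ (1 - θ) * ((p - δ / 8) * NZ T) := by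
    rw [← mul_assoc]
    refine mul_le_mul_of_nonneg_right ?_ hN
    have : 0 < θ * δ := by positivity
    linarith
  have h14 : (1 + p - δ / 4) * NZ T ≤ NZ T + (1 - 2 * θ ^ 2) * E T (ind T ζ) := by
    linarith
  have h15 : (1 + p - δ) * X T ≤ (1 + p - δ / 4) * ((1 - θ) * X T) := by
    rw [← mul_assoc]
    refine mul_le_mul_of_nonneg_right ?_ hX.le
    have : 0 < θ * δ := by positivity
    linarith
  have h16 : (1 + p - δ / 4) * ((1 - θ) * X T) ≤ (1 + p - δ / 4) * NZ T :=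
    mul_le_mul_of_nonneg_left h5.1 (by linarith)
  have h17 : X T * (1 + p - δ) ≤ X T * (2 / A ^ 2 * ∫ a in (0 : ℝ)..A, cum T a) := by linarith
  exact le_of_mul_le_mul_left h17 hX

/-- the lower bound of the mean value -/
theorem cl_ml (hRH : RiemannHypothesis) (hl : l ≤ atTop) {p : ℝ} (hp : 0 ≤ p)
    (h : CL l p) (h' : CU l p) : ML l (1 + p) := by
  intro δ' hδ'
  set δ : ℝ := min δ' 1 with hδd
  have hδ : 0 < δ := by positivity
  have hδ1 : δ ≤ 1 := min_le_right _ _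
  have hδδ' : δ ≤ δ' := min_le_left _ _
  set η : ℝ := δ / (1 + p + δ) with hη
  have hη0 : 0 < η := by positivity
  have hη1 : (1 + p + δ) * η = δ := by
    rw [hη]
    field_simp
  have hη2 : η < 1 := by
    rw [hη, div_lt_one (by positivity)]
    linarith
  set δ₁ : ℝ := η * δ / 3 with hδ₁
  have hδ₁0 : 0 < δ₁ := by positivity
  have hδ₁1 : δ₁ ≤ 1 := by nlinarith
  obtain ⟨B₀, hB₀, h1⟩ := int_up' hRH hl hp h hδ₁0
  refine ⟨B₀ / (1 - η), div_pos hB₀ (by linarith), fun A hA => ?_⟩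
  rw [div_le_iff₀ (by linarith)] at hA
  have hη3 : 0 < 1 - η := by linarith
  have hA0 : 0 < A := by
    have h2 : 0 < A * (1 - η) := by linarith
    exact (mul_pos_iff_of_pos_right hη3).1 h2
  set B : ℝ := A * (1 - η) with hB
  have hB0 : 0 < B := by linarith
  have hBA : B ≤ A := by
    have : 0 < A * η := by positivity
    linarith
  filter_upwards [h1 B hA, int_lo hRH hl hp h' hδ₁0 hδ₁1 hA0,
    (eventually_gt_atTop (1 : ℝ)).filter_mono hl] with T h8 h12 hT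
  have hX := X_pos hT
  have h9 : ∫ a in (0 : ℝ)..B, cum T a ≤ B ^ 2 / 2 * (1 + p + δ₁) := by
    have : ∫ a in (0 : ℝ)..B, cum T a =
        B ^ 2 / 2 * (2 / B ^ 2 * ∫ a in (0 : ℝ)..B, cum T a) := by
      field_simp
    rw [this]
    gcongr
  have h13 : A ^ 2 / 2 * (1 + p - δ₁) ≤ ∫ a in (0 : ℝ)..A, cum T a := by
    have : ∫ a in (0 : ℝ)..A, cum T a =
        A ^ 2 / 2 * (2 / A ^ 2 * ∫ a in (0 : ℝ)..A, cum T a) := by
      field_simp
    rw [this]
    gcongr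
  -- the difference
  have hc := cum_cont hRH T
  have h14 : ∫ a in B..A, cum T a ≤ (A - B) * cum T A := by
    have h15 : ∫ a in B..A, cum T a ≤ ∫ a in B..A, cum T A := by
      refine intervalIntegral.integral_mono_on hBA (hc.intervalIntegrable _ _) (by simp)
        fun a ha => cum_mono hRH hT ha.2
    rw [intervalIntegral.integral_const, smul_eq_mul] at h15
    exact h15
  have h15 : (∫ a in (0 : ℝ)..B, cum T a) + ∫ a in B..A, cum T a = ∫ a in (0 : ℝ)..A, cum T a :=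
    intervalIntegral.integral_add_adjacent_intervals (hc.intervalIntegrable _ _)
      (hc.intervalIntegrable _ _)
  have h16 : A ^ 2 / 2 * (1 + p - δ₁) - B ^ 2 / 2 * (1 + p + δ₁) ≤ (A - B) * cum T A := by
    linarith
  have h17 : A - B = η * A := by
    rw [hB]
    ring
  rw [h17] at h16
  have h18 : η * A * ((1 + p - δ) * A) ≤
      A ^ 2 / 2 * (1 + p - δ₁) - B ^ 2 / 2 * (1 + p + δ₁) := by
    have h19 : A ^ 2 / 2 * (1 + p - δ₁) - B ^ 2 / 2 * (1 + p + δ₁) =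
        A ^ 2 * ((1 + p) * (η - η ^ 2 / 2) - δ₁ / 2 - (1 - η) ^ 2 * (δ₁ / 2)) := by
      rw [hB]
      ring
    have h20 : η * A * ((1 + p - δ) * A) = A ^ 2 * (η * (1 + p - δ)) := by ring
    rw [h19, h20]
    refine mul_le_mul_of_nonneg_left ?_ (by positivity)
    have h21 : (1 + p) * η ≤ δ := by
      have : 0 < δ * η := by positivity
      linarith
    have h22 : (1 - η) ^ 2 * (δ₁ / 2) ≤ δ₁ / 2 := by
      have h24 : (1 - η) ^ 2 ≤ 1 := by nlinarith
      exact mul_le_of_le_one_left (by positivity) h24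
    have h23 : δ₁ * 3 = η * δ := by
      rw [hδ₁]
      ring
    have h24 : (1 + p) * η * η ≤ δ * η := by gcongr
    linarith
  have h19 : η * A * ((1 + p - δ) * A) ≤ η * A * cum T A := h18.trans h16
  have h20 : (1 + p - δ) * A ≤ cum T A := le_of_mul_le_mul_left h19 (by positivity)
  refine le_trans ?_ h20
  refine mul_le_mul_of_nonneg_right ?_ hA0.le
  linarith

/-- **mean values bound the clusters from below** -/
theorem ml_cu (hRH : RiemannHypothesis) (hl : l ≤ atTop) {p : ℝ} (hp : 0 ≤ p)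
    (h : ML l (1 + p)) : CU l p := by
  intro δ hδ ζ hζ
  set δ₁ : ℝ := min (δ / 8) (1 / 2) with hδ₁
  have hδ₁0 : 0 < δ₁ := by positivity
  have hδ₁1 : δ₁ ≤ δ / 8 := min_le_left _ _
  have hδ₁2 : δ₁ ≤ 1 / 2 := min_le_right _ _
  obtain ⟨A₀, hA₀, h1⟩ := h δ₁ hδ₁0
  set m' : ℝ := 1 + p - δ₁ with hm'
  have hm'0 : 0 < m' := by
    rw [hm']
    linarith
  set K : ℝ := 16 * m' * (1 + A₀) / δ + 3200 * (1 + 1 / ζ ^ 2) / δ with hK
  have hK0 : 0 < K := by positivity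
  set A : ℝ := A₀ + K + 1 with hA
  have hA0 : A₀ ≤ A := by linarith
  have hA00 : 0 < A := by linarith
  have hA1 : 1 ≤ A := by linarith
  have hA2 : 16 * m' * (1 + A₀) ≤ A * δ := by
    rw [← div_le_iff₀ hδ]
    have : 0 < 3200 * (1 + 1 / ζ ^ 2) / δ := by positivity
    linarith
  have hA3 : 3200 * (1 + 1 / ζ ^ 2) ≤ A * δ := by
    rw [← div_le_iff₀ hδ]
    have : 0 < 16 * m' * (1 + A₀) / δ := by positivity
    linarith
  set e : ℝ := δ / (8 * (1 + p)) with he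
  have he0 : 0 < e := by positivity
  have he1 : (1 + p) * e = δ / 8 := by
    rw [he]
    field_simp
  have hl1 : ∀ᶠ T in l, (1 : ℝ) < T := (eventually_gt_atTop (1 : ℝ)).filter_mono hl
  have hu := unif_lower (l := l) (G := fun T t => cum T t / m') (s := A₀) (A := A) (β := 0) hA0 (by
    filter_upwards [hl1] with T hT t t' htt'
    have := cum_mono hRH hT htt'
    show cum T t / m' ≤ cum T t' / m'
    gcongr) (fun t ht ε hε => by
      filter_upwards [h1 t ht.1] with T hT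
      show _ ≤ cum T t / m'
      rw [le_div_iff₀ hm'0]
      nlinarith) (ε := 1) one_pos
  filter_upwards [hu, hl1, (tail hRH).filter_mono hl, (NZ_asymp he0).filter_mono hl]
    with T hT hT1 h4 h5
  have hX := X_pos hT1
  have hN := NZ_nonneg T
  have h2 : ∀ t ∈ Set.Icc 0 A, m' * (t - (1 + A₀)) ≤ cum T t := by
    intro t ht
    rcases le_total A₀ t with h3 | h3
    · have h4 : t + 0 - 1 ≤ cum T t / m' := hT t ⟨h3, ht.2⟩
      rw [le_div_iff₀ hm'0] at h4
      nlinarith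
    · have h4 := cum_nonneg hRH hT1 ht.1
      have h5 : m' * (t - (1 + A₀)) ≤ 0 := mul_nonpos_of_nonneg_of_nonpos hm'0.le (by linarith)
      linarith
  have h3 : ∫ a in (0 : ℝ)..A, m' * (a - (1 + A₀)) ≤ ∫ a in (0 : ℝ)..A, cum T a := by
    refine intervalIntegral.integral_mono_on hA00.le
      ((by fun_prop : Continuous fun a : ℝ => m' * (a - (1 + A₀))).intervalIntegrable _ _)
      ((cum_cont hRH T).intervalIntegrable _ _) h2
  have h6 : ∫ a in (0 : ℝ)..A, m' * (a - (1 + A₀)) = m' * (A ^ 2 / 2 - A * (1 + A₀)) := by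
    rw [intervalIntegral.integral_const_mul, intervalIntegral.integral_sub (by simp) (by simp),
      intervalIntegral.integral_const, int_id, smul_eq_mul]
    ring
  rw [h6] at h3
  have h7 : (m' - δ / 8) ≤ 2 / A ^ 2 * ∫ a in (0 : ℝ)..A, cum T a := by
    have h8 : (m' - δ / 8) * (A ^ 2 / 2) ≤ m' * (A ^ 2 / 2 - A * (1 + A₀)) := by
      have h9 : A * (16 * m' * (1 + A₀)) ≤ A * (A * δ) := by gcongr
      linarith
    have h10 : 2 / A ^ 2 * ((m' - δ / 8) * (A ^ 2 / 2)) ≤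
        2 / A ^ 2 * ∫ a in (0 : ℝ)..A, cum T a := by
      gcongr
      linarith
    refine le_trans (le_of_eq ?_) h10
    field_simp
  have h8 := mean_le hRH hT1 hA00
  have h9 := E_fk hA00 hζ h4
  have h10 : 4 / A ^ 2 * (1 + 1 / ζ ^ 2) * (100 * X T) ≤ δ / 8 * X T := by
    rw [← mul_assoc]
    gcongr
    have h11 : 4 / A ^ 2 * (1 + 1 / ζ ^ 2) * 100 = 3200 * (1 + 1 / ζ ^ 2) / (8 * A ^ 2) := by ring
    rw [h11, div_le_iff₀ (by positivity)]
    have h12 : A * δ ≤ A ^ 2 * δ := by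
      have : A ≤ A ^ 2 := by nlinarith
      gcongr
    linarith
  have h11 : X T * (m' - δ / 8) ≤ X T * (2 / A ^ 2 * ∫ a in (0 : ℝ)..A, cum T a) := by gcongr
  have h12 : (p - δ / 2 - e) * X T ≤ E T (ind T ζ) := by
    have h13 : X T * (m' - δ / 8) = X T + (p - δ₁ - δ / 8) * X T := by
      rw [hm']
      ring
    have h14 : δ₁ * X T ≤ δ / 8 * X T := by gcongr
    have h15 := h5.2
    have h16 : 0 < δ * X T := by positivity
    linarith
  rcases le_total p δ with h13 | h13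
  · have hE : 0 ≤ E T (ind T ζ) := E_nonneg fun x => ind_nonneg T ζ x
    have h14 : (p - δ) * NZ T ≤ 0 := mul_nonpos_of_nonpos_of_nonneg (by linarith) hN
    linarith
  · have h14 : (p - δ) * NZ T ≤ (p - δ) * ((1 + e) * X T) :=
      mul_le_mul_of_nonneg_left h5.2 (by linarith)
    refine le_trans (h14.trans ?_) h12
    rw [← mul_assoc]
    refine mul_le_mul_of_nonneg_right ?_ hX.le
    have h15 : 0 < δ * e := by positivity
    have h16 : 0 ≤ p * e := by positivity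
    linarith

end Pool.Agent.Helper69.PC
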