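import Pool.Agent.Helper69.PC.Mean3

/-! Almost all unit windows. -/

open Filter Topology Complex MeasureTheory

namespace Pool.Agent.Helper69.PC

open H332B Pool.Agent.Helper84.OS

variable {l : Filter ℝ}

/-- `F` has mean value one on almost all unit windows -/
def AW (l : Filter ℝ) : Prop := ∀ δ : ℝ, 0 < δ → ∃ n₀ : ℕ, ∀ n : ℕ, n₀ ≤ n → ∀ᶠ T in l,
  ∑ k ∈ Finset.range n, |cum T (k + 2) - cum T (k + 1) - 1| ≤ δ * n

lemma tele (T : ℝ) (n : ℕ) : ∑ k ∈ Finset.range n, (cum T (k + 2) - cum T (k + 1) - 1) =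
    cum T (n + 1) - cum T 1 - n := by
  induction n with
  | zero => simp
  | succ n ih =>
    rw [Finset.sum_range_succ, ih]
    push_cast
    rw [show (n : ℝ) + 1 + 1 = n + 2 by ring]
    ring

theorem cl_aw (hRH : RiemannHypothesis) (hl : l ≤ atTop) (hlow : LH l 0) (h : CL l 0) :
    AW l := by
  intro δ hδ
  obtain ⟨A₀, hA₀, h1⟩ := ma_mu (cl_ma hRH hl le_rfl h) (δ / 8) (by positivity)
  obtain ⟨n₁, hn₁⟩ := exists_nat_ge A₀
  obtain ⟨n₂, hn₂⟩ := exists_nat_ge (8 / δ)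
  refine ⟨max (max n₁ n₂) 1, fun n hn => ?_⟩
  have hn1 : (n₁ : ℝ) ≤ n := by
    exact_mod_cast ((le_max_left n₁ n₂).trans (le_max_left _ _)).trans hn
  have hn2 : (n₂ : ℝ) ≤ n := by
    exact_mod_cast ((le_max_right n₁ n₂).trans (le_max_left _ _)).trans hn
  have hn3 : (1 : ℝ) ≤ n := by
    exact_mod_cast (le_max_right _ _).trans hn
  have hn4 : 8 ≤ n * δ := by
    rw [← div_le_iff₀ hδ]
    linarith
  have h2 : ∀ᶠ T in l, ∀ k ∈ Finset.range n,
      1 - δ / 8 ≤ cum T ((k : ℝ) + 2) - cum T ((k : ℝ) + 1) := by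
    rw [Filter.eventually_all_finset]
    intro k _
    have hk : (0 : ℝ) ≤ k := Nat.cast_nonneg _
    filter_upwards [hlow (k + 1) (k + 2) (by linarith) (by linarith) (δ / 8) (by positivity)]
      with T hT
    rw [mm_one_le (by linarith), mm_one_le (by linarith)] at hT
    linarith
  filter_upwards [h1 (n + 1) (by linarith), h2,
    (eventually_gt_atTop (1 : ℝ)).filter_mono hl] with T h3 h4 hT
  have h5 := tele T n
  have h6 : ∑ k ∈ Finset.range n, |cum T ((k : ℝ) + 2) - cum T ((k : ℝ) + 1) - 1| ≤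
      ∑ k ∈ Finset.range n, ((cum T ((k : ℝ) + 2) - cum T ((k : ℝ) + 1) - 1) + δ / 4) := by
    refine Finset.sum_le_sum fun k hk => ?_
    have h7 := h4 k hk
    rcases abs_cases (cum T ((k : ℝ) + 2) - cum T ((k : ℝ) + 1) - 1) with h8 | h8 <;> linarith
  rw [Finset.sum_add_distrib, h5, Finset.sum_const, Finset.card_range, nsmul_eq_mul] at h6
  have h7 := cum_nonneg hRH hT (zero_le_one)
  have h8 : δ ≤ n * δ := by nlinarith
  linarith

theorem aw_cl (hRH : RiemannHypothesis) (hl : l ≤ atTop) (h : AW l) : CL l 0 := by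
  refine mu_cl hRH hl le_rfl ?_
  intro δ hδ
  obtain ⟨n₀, h1⟩ := h (δ / 4) (by positivity)
  obtain ⟨C, T0, hC, hT0, h2⟩ := cum_bound hRH
  refine ⟨n₀ + 2 * (3 + C + δ / 4) / δ, by positivity, fun A hA => ?_⟩
  have h0 : 0 < 2 * (3 + C + δ / 4) / δ := by positivity
  have hn0 : (0 : ℝ) ≤ n₀ := Nat.cast_nonneg _
  have hA0 : 0 < A := by linarith
  have hA1 : 2 * (3 + C + δ / 4) ≤ A * δ := by
    rw [← div_le_iff₀ hδ]
    linarith
  have hn1 : A ≤ ⌈A⌉₊ := Nat.le_ceil A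
  have hn2 : (⌈A⌉₊ : ℝ) < A + 1 := Nat.ceil_lt_add_one hA0.le
  filter_upwards [h1 ⌈A⌉₊ (by
    have : (n₀ : ℝ) ≤ ⌈A⌉₊ := by linarith
    exact_mod_cast this), (eventually_ge_atTop T0).filter_mono hl] with T h3 h4
  have hT : 1 < T := by linarith
  have h5 := tele T ⌈A⌉₊
  have h6 : ∑ k ∈ Finset.range ⌈A⌉₊, (cum T ((k : ℝ) + 2) - cum T ((k : ℝ) + 1) - 1) ≤
      ∑ k ∈ Finset.range ⌈A⌉₊, |cum T ((k : ℝ) + 2) - cum T ((k : ℝ) + 1) - 1| :=
    Finset.sum_le_sum fun k _ => le_abs_self _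
  have h7 := h2 T h4 1 zero_le_one
  have h8 := cum_mono hRH hT (show A ≤ ⌈A⌉₊ + 1 by linarith)
  rw [h5] at h6
  have h9 : δ / 4 * ⌈A⌉₊ ≤ δ / 4 * (A + 1) := by gcongr
  rw [add_zero]
  linarith

end Pool.Agent.Helper69.PC
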